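import Pool.Agent.U672.TC.Tor

/-!
# Strata
-/

set_option autoImplicit false

open CategoryTheory AlgebraicGeometry MvPolynomial Pool.Agent.Y116.UV Pool.Agent.Z125.UN
  Pool.Agent.U738.BN Pool.Agent.U672.ST

namespace Pool.Agent.U672.TC

section leaf

variable {R : Type} [CommRing R] {σ κ : Type} (Z : Finset σ)

/-- the coordinates which are not in `Z` -/
abbrev Cp : Type := {s : σ // s ∉ Z}

lemma val_inj : Function.Injective (Subtype.val : Cp Z → σ) := Subtype.val_injective

/-- the restriction to the subspace `x s = 0`, `s ∈ Z` -/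
noncomputable def rs : MvPolynomial σ R →ₐ[R] MvPolynomial (Cp Z) R := killCompl (val_inj Z)

lemma rs_X (s : Cp Z) : rs Z (X s.1 : MvPolynomial σ R) = X s := by
  have h := killCompl_rename_app (val_inj Z) (X s : MvPolynomial (Cp Z) R)
  rw [rename_X] at h
  exact h

lemma rs_X0 (s : σ) (hs : s ∈ Z) : rs Z (X s : MvPolynomial σ R) = 0 := by
  rw [rs, killCompl, aeval_X, dif_neg]
  rintro ⟨x, rfl⟩
  exact x.2 hs

variable (G : κ → MvPolynomial σ R) (w : MvPolynomial σ R)

/-- the relations `x s = 0` for `s ∈ Z` are added -/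
noncomputable def zG : κ ⊕ {s // s ∈ Z} → MvPolynomial σ R := Sum.elim G fun s => X s.1

open Classical in
/-- to the stratum -/
noncomputable def lfa (s : σ) : Pc (fun i => rs Z (G i)) (rs Z w) :=
  if h : s ∈ Z then 0 else pv _ _ (⟨s, h⟩ : Cp Z)

lemma aeval_lfa (p : MvPolynomial σ R) :
    aeval (lfa Z G w) p = pc (fun i => rs Z (G i)) (rs Z w) (rs Z p) := by
  have h : aeval (lfa Z G w) = (pc (fun i => rs Z (G i)) (rs Z w)).comp (rs Z) := by
    apply MvPolynomial.algHom_ext
    intro s
    rw [aeval_X, AlgHom.comp_apply, lfa]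
    split_ifs with h
    · rw [rs_X0 Z s h, map_zero]
    · have h2 := rs_X (R := R) Z ⟨s, h⟩
      change rs Z (X s) = _ at h2
      rw [h2]
      rfl
  rw [h]
  rfl

lemma aeval_lfb (p : MvPolynomial σ R) :
    aeval (fun s : Cp Z => pv (zG Z G) w s.1) (rs Z p) = pc (zG Z G) w p := by
  have h : (aeval (fun s : Cp Z => pv (zG Z G) w s.1)).comp (rs Z) = pc (zG Z G) w := by
    apply MvPolynomial.algHom_ext
    intro s
    rw [AlgHom.comp_apply]
    by_cases h : s ∈ Z
    · rw [rs_X0 Z s h, map_zero]
      exact (pc_rel (zG Z G) w (Sum.inr ⟨s, h⟩)).symm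
    · have h2 := rs_X (R := R) Z ⟨s, h⟩
      change rs Z (X s) = _ at h2
      rw [h2, aeval_X]
      rfl
  rw [← h]
  rfl

/-- **The closed stratum.** -/
noncomputable def leafE : Pc (zG Z G) w ≃ₐ[R] Pc (fun i => rs Z (G i)) (rs Z w) :=
  pcEquiv (lfa Z G w)
    (by
      rintro (i | s)
      · rw [aeval_lfa]
        exact pc_rel (fun i => rs Z (G i)) (rs Z w) i
      · rw [aeval_lfa]
        change pc _ _ (rs Z (X s.1)) = 0
        rw [rs_X0 Z s.1 s.2, map_zero])
    (by
      rw [aeval_lfa]
      exact pc_unit _ _)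
    (fun s : Cp Z => pv (zG Z G) w s.1)
    (by
      intro i
      rw [aeval_lfb]
      exact pc_rel (zG Z G) w (Sum.inl i))
    (by
      rw [aeval_lfb]
      exact pc_unit _ _)
    (by
      intro s
      rw [lfa]
      split_ifs with h
      · exact (map_zero _).trans (pc_rel (zG Z G) w (Sum.inr ⟨s, h⟩)).symm
      · exact pcLift_pv _ _ _ _ _ _)
    (by
      intro s
      rw [pcLift_pv, lfa, dif_neg s.2])

lemma coeff_rs (f : MvPolynomial σ R) (a : Cp Z →₀ ℕ) :
    coeff a (rs Z f) = coeff (a.mapDomain Subtype.val) f := by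
  classical
  induction f using MvPolynomial.induction_on' with
  | monomial m c =>
    by_cases h : (m.support : Set σ) ⊆ Set.range (Subtype.val : Cp Z → σ)
    · rw [rs, killCompl_monomial_eq_monomial_comapDomain_of_subset _ _ h, coeff_monomial,
        coeff_monomial]
      congr 1
      apply propext
      constructor
      · rintro rfl
        exact (Finsupp.mapDomain_comapDomain _ (val_inj Z) _ h).symm
      · rintro rfl
        exact Finsupp.comapDomain_mapDomain _ (val_inj Z) _
    · rw [rs, killCompl_monomial_eq_zero_of_not_subset _ _ h, coeff_zero, coeff_monomial, if_neg]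
      rintro rfl
      apply h
      intro s hs
      have h2 := Finsupp.mapDomain_support hs
      obtain ⟨t, _, rfl⟩ := Finset.mem_image.mp h2
      exact ⟨t, rfl⟩
  | add p q hp hq => rw [map_add, coeff_add, coeff_add, hp, hq]

lemma supp_rs (f : MvPolynomial σ R) (a : Cp Z →₀ ℕ) :
    a ∈ (rs Z f).support ↔ a.mapDomain Subtype.val ∈ f.support := by
  rw [mem_support_iff, mem_support_iff, coeff_rs]

lemma card_rs (f : MvPolynomial σ R) : (rs Z f).support.card ≤ f.support.card := by
  classical
  refine Finset.card_le_card_of_injOn (fun a => a.mapDomain Subtype.val) ?_ ?_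
  · intro a ha
    exact (supp_rs Z f a).mp ha
  · intro a _ b _ h
    exact Finsupp.mapDomain_injective (val_inj Z) h

end leaf

section strat

variable {R : Type} [CommRing R] {sep : Prop} {P : Sch R → Prop} {σ κ : Type} [Fintype σ]
  [DecidableEq σ]

/-- the product of the coordinates in `W` -/
noncomputable def sw (R : Type) [CommRing R] {σ : Type} (W : Finset σ) : MvPolynomial σ R :=
  ∏ s ∈ W, X s

omit [Fintype σ] in
lemma sw_insert (W : Finset σ) (s : σ) (hs : s ∉ W) : sw R (insert s W) = sw R W * X s := by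
  rw [sw, Finset.prod_insert hs, mul_comm]
  rfl

omit [Fintype σ] in
/-- one more relation -/
noncomputable def insE (G : κ → MvPolynomial σ R) (w : MvPolynomial σ R) (Z : Finset σ) (s : σ) :
    Pc (zG (insert s Z) G) w ≃ₐ[R] Pc (adj (zG Z G) (X s)) w :=
  pcSame
    (by
      rintro (i | ⟨t, ht⟩)
      · exact pc_rel (adj (zG Z G) (X s)) w (some (Sum.inl i))
      · rcases Finset.mem_insert.mp ht with rfl | ht
        · exact pc_rel (adj (zG Z G) (X t)) w none
        · exact pc_rel (adj (zG Z G) (X s)) w (some (Sum.inr ⟨t, ht⟩)))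
    (pc_unit _ _)
    (by
      rintro (_ | i | ⟨t, ht⟩)
      · exact pc_rel (zG (insert s Z) G) w (Sum.inr ⟨s, Finset.mem_insert_self s Z⟩)
      · exact pc_rel (zG (insert s Z) G) w (Sum.inl i)
      · exact pc_rel (zG (insert s Z) G) w (Sum.inr ⟨t, Finset.mem_insert_of_mem ht⟩))
    (pc_unit _ _)

omit [Fintype σ] [DecidableEq σ] in
/-- no relation -/
noncomputable def empE (G : κ → MvPolynomial σ R) (w : MvPolynomial σ R) :
    Pc (zG ∅ G) w ≃ₐ[R] Pc G w :=
  pcSame
    (by
      rintro (i | ⟨t, ht⟩)
      · exact pc_rel G w i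
      · exact absurd ht (Finset.notMem_empty t))
    (pc_unit _ _)
    (fun i => pc_rel (zG ∅ G) w (Sum.inl i))
    (pc_unit _ _)

/-- The open part, from all closed strata. -/
lemma open_P (hP : Bnd sep P) (G : κ → MvPolynomial σ R)
    (h : ∀ Z : Finset σ, P (aff R (Pc (zG Z G) 1))) : P (aff R (Tor G)) := by
  have key : ∀ W Z : Finset σ, P (aff R (Pc (zG Z G) (sw R W))) := by
    intro W
    induction W using Finset.induction_on with
    | empty =>
      intro Z
      rw [sw, Finset.prod_empty]
      exact h Z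
    | insert s W hs ih =>
      intro Z
      rw [sw_insert W s hs]
      exact pc_open hP (ih Z) (iso_alg hP.toUni (insE G (sw R W) Z s) (ih (insert s Z)))
  exact iso_alg hP.toUni (empE G (tw R σ)) (key Finset.univ ∅)

/-- From the open parts of all strata. -/
lemma strata_P (hP : Bnd sep P) (G : κ → MvPolynomial σ R)
    (h : ∀ Z : Finset σ, P (aff R (Pc (zG Z G) (sw R Zᶜ)))) : P (aff R (Pc G 1)) := by
  have key : ∀ U Z : Finset σ, Disjoint U Z → P (aff R (Pc (zG Z G) (sw R (U ∪ Z)ᶜ))) := by
    intro U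
    induction U using Finset.induction_on with
    | empty =>
      intro Z _
      rw [Finset.empty_union]
      exact h Z
    | insert s U hs ih =>
      intro Z hZ
      rw [Finset.disjoint_insert_left] at hZ
      refine pc_total hP (e := X s) ?_ ?_
      · have h1 : (insert s U ∪ Z)ᶜ = (U ∪ insert s Z)ᶜ := by
          rw [Finset.insert_union, Finset.union_insert]
        rw [h1]
        refine iso_alg hP.toUni (insE G _ Z s) (ih (insert s Z) ?_)
        rw [Finset.disjoint_insert_right]
        exact ⟨hs, hZ.2⟩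
      · have h1 : (U ∪ Z)ᶜ = insert s (insert s U ∪ Z)ᶜ := by
          ext t
          simp only [Finset.mem_compl, Finset.mem_union, Finset.mem_insert]
          by_cases ht : t = s
          · subst ht
            simp only [true_or, not_true_eq_false, iff_true, not_or]
            exact ⟨hs, hZ.1⟩
          · simp only [ht, false_or]
        rw [← sw_insert, ← h1]
        · exact ih Z hZ.2
        · rw [Finset.mem_compl, not_not]
          exact Finset.mem_union_left _ (Finset.mem_insert_self s U)
  have h2 := key Finset.univ ∅ (Finset.disjoint_empty_right _)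
  have h3 : (Finset.univ ∪ ∅ : Finset σ)ᶜ = ∅ := by
    rw [Finset.union_empty, Finset.compl_univ]
  rw [h3, sw, Finset.prod_empty] at h2
  exact iso_alg hP.toUni (empE G 1) h2

/-- the coordinates on the stratum -/
lemma rs_sw (Z : Finset σ) : rs Z (sw R Zᶜ) = tw R (Cp Z) := by
  rw [sw, map_prod, tw]
  have h : ∏ s ∈ Zᶜ, rs Z (X s : MvPolynomial σ R) =
      ∏ s : {s // s ∈ Zᶜ}, rs Z (X s.1 : MvPolynomial σ R) :=
    (Finset.prod_coe_sort Zᶜ fun s => rs Z (X s : MvPolynomial σ R)).symm
  rw [h]
  refine Fintype.prod_equiv (Equiv.subtypeEquivRight fun s => Finset.mem_compl) _ _ ?_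
  intro s
  exact rs_X Z ⟨s.1, Finset.mem_compl.mp s.2⟩

/-- **From tori to affine spaces.** -/
theorem tori_P (hP : Bnd sep P) (G : κ → MvPolynomial σ R)
    (h : ∀ Z : Finset σ, P (aff R (Tor fun i => rs Z (G i)))) : P (aff R (Pc G 1)) := by
  refine strata_P hP G fun Z => ?_
  have h1 : P (aff R (Pc (fun i => rs Z (G i)) (rs Z (sw R Zᶜ)))) := by
    rw [rs_sw]
    exact h Z
  exact iso_alg hP.toUni (leafE Z G (sw R Zᶜ)).symm h1

end strat

end Pool.Agent.U672.TC
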