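import Pool.Agent.U672.TC.Fam
import Pool.Agent.U672.TC.Str

/-!
# Systems of small excess and independent equations in affine spaces
-/

set_option autoImplicit false

open CategoryTheory AlgebraicGeometry MvPolynomial Pool.Agent.Y116.UV Pool.Agent.Z125.UN
  Pool.Agent.U738.BN Pool.Agent.U672.ST

namespace Pool.Agent.U672.TC

section

variable {k : Type} [Field k] {σ κ ρ : Type} (Z : Finset σ)

/-- extension by zero -/
noncomputable def ex0 : (Cp Z → ℤ) →ₗ[ℤ] (σ → ℤ) :=
  Function.ExtendByZero.linearMap ℤ (Subtype.val : Cp Z → σ)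

lemma zv_val (a : Cp Z →₀ ℕ) : zv (a.mapDomain Subtype.val) = ex0 Z (zv a) := by
  funext s
  change ((a.mapDomain Subtype.val) s : ℤ) = Function.extend (Subtype.val : Cp Z → σ) (zv a) 0 s
  by_cases h : s ∈ Z
  · rw [Finsupp.mapDomain_of_notMem_range, Function.extend_apply']
    · rfl
    · rintro ⟨t, rfl⟩
      exact t.2 h
    · rintro ⟨t, rfl⟩
      exact t.2 h
  · have h1 := Finsupp.mapDomain_apply (val_inj Z) a ⟨s, h⟩
    have h2 := (val_inj Z).extend_apply (zv a) (0 : σ → ℤ) ⟨s, h⟩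
    exact (congrArg (Nat.cast : ℕ → ℤ) h1).trans h2.symm

lemma dif_rs (G : κ → MvPolynomial σ k) (g : Cp Z → ℤ)
    (hg : g ∈ Submodule.span ℤ (dif fun i => rs Z (G i))) :
    ex0 Z g ∈ Submodule.span ℤ (dif G) := by
  induction hg using Submodule.span_induction with
  | mem g hg =>
    obtain ⟨i, a, ha, b, hb, rfl⟩ := hg
    apply Submodule.subset_span
    refine ⟨i, _, (supp_rs Z (G i) a).mp ha, _, (supp_rs Z (G i) b).mp hb, ?_⟩
    rw [zv_val, zv_val, map_sub]
  | zero =>
    rw [map_zero]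
    exact Submodule.zero_mem _
  | add g g' _ _ h h' =>
    rw [map_add]
    exact Submodule.add_mem _ h h'
  | smul n g _ h =>
    rw [map_smul]
    exact Submodule.smul_mem _ _ h

open Classical in
/-- extension of functions on the exponents -/
noncomputable def exn (n : (Cp Z →₀ ℕ) → ℤ) (m : σ →₀ ℕ) : ℤ :=
  if h : ∃ a : Cp Z →₀ ℕ, a.mapDomain Subtype.val = m then n h.choose else 0

lemma exn_map (n : (Cp Z →₀ ℕ) → ℤ) (a : Cp Z →₀ ℕ) :
    exn Z n (a.mapDomain Subtype.val) = n a := by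
  have h : ∃ b : Cp Z →₀ ℕ, b.mapDomain Subtype.val = a.mapDomain Subtype.val := ⟨a, rfl⟩
  rw [exn, dif_pos h]
  congr 1
  exact Finsupp.mapDomain_injective (val_inj Z) h.choose_spec

lemma sum_exn {M : Type} [AddCommMonoid M] (f : MvPolynomial σ k) (n : (Cp Z →₀ ℕ) → ℤ)
    (F : (σ →₀ ℕ) → ℤ → M) (hF : ∀ m, F m 0 = 0) :
    ∑ m ∈ f.support, F m (exn Z n m) =
      ∑ a ∈ (rs Z f).support, F (a.mapDomain Subtype.val) (n a) := by
  classical
  have h1 : (rs Z f).support.image (fun a => a.mapDomain Subtype.val) ⊆ f.support := by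
    intro m hm
    obtain ⟨a, ha, rfl⟩ := Finset.mem_image.mp hm
    exact (supp_rs Z f a).mp ha
  rw [← Finset.sum_subset h1, Finset.sum_image]
  · refine Finset.sum_congr rfl fun a _ => ?_
    rw [exn_map]
  · exact fun a _ b _ h => Finsupp.mapDomain_injective (val_inj Z) h
  · intro m hm hm'
    rw [exn, dif_neg, hF]
    rintro ⟨a, rfl⟩
    exact hm' (Finset.mem_image.mpr ⟨a, (supp_rs Z f a).mpr hm, rfl⟩)

lemma ind_rs [Fintype ρ] (G : κ → MvPolynomial σ k) (H : ρ → MvPolynomial σ k) (hI : IndS G H) :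
    IndS (fun i => rs Z (G i)) fun i => rs Z (H i) := by
  intro n hn hn1 i a ha
  have h1 := hI (fun i => exn Z (n i)) (by
    intro i
    rw [sum_exn Z (H i) (n i) (fun _ x => x) fun _ => rfl]
    exact hn i) (by
    have h2 : ∑ i, ∑ m ∈ (H i).support, exn Z (n i) m • zv m =
        ex0 Z (∑ i, ∑ a ∈ (rs Z (H i)).support, n i a • zv a) := by
      rw [map_sum]
      refine Finset.sum_congr rfl fun i _ => ?_
      rw [sum_exn Z (H i) (n i) (fun m x => x • zv m) fun m => zero_smul ℤ _, map_sum]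
      refine Finset.sum_congr rfl fun a _ => ?_
      rw [map_smul, zv_val]
    rw [h2]
    exact dif_rs Z G _ hn1) i _ ((supp_rs Z (H i) a).mp ha)
  rw [exn_map] at h1
  exact h1

lemma excess_rs [Fintype κ] (G : κ → MvPolynomial σ k) :
    excess (fun i => rs Z (G i)) ≤ excess G := by
  exact Finset.sum_le_sum fun i _ => Nat.sub_le_sub_right (card_rs Z (G i)) 2

end

section

variable {k : Type} [Field k] {P : Sch k → Prop} {N : ℕ}

/-- **Systems in affine spaces.** -/
theorem main_P (hP : BndT P) (hp : Plane P) (hN : PosN True P N) {σ κ : Type} [Finite σ]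
    [Fintype κ] {r : ℕ} (G : κ → MvPolynomial σ k) (H : Fin r → MvPolynomial σ k)
    (hI : IndS G H) (he : excess G ≤ N + 1) :
    P (aff k (MvPolynomial σ k ⧸ Ideal.span (Set.range (Sum.elim G H)))) := by
  classical
  have := Fintype.ofFinite σ
  refine iso_alg hP.toUni (oneE (Sum.elim G H)).symm (tori_P hP.toBnd _ fun Z => ?_)
  have h := fam_T hP hp hN r (fun i => rs Z (G i)) (fun i => rs Z (H i)) (ind_rs Z G H hI)
    ((excess_rs Z G).trans he)
  refine iso_alg hP.toUni (pcSame ?_ (pc_unit _ _) ?_ (pc_unit _ _)) h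
  · rintro (i | i)
    · exact pc_rel (fun i => rs Z (Sum.elim G H i)) _ (Sum.inl i)
    · exact pc_rel (fun i => rs Z (Sum.elim G H i)) _ (Sum.inr i)
  · rintro (i | i)
    · exact pc_rel (Sum.elim (fun i => rs Z (G i)) fun i => rs Z (H i)) _ (Sum.inl i)
    · exact pc_rel (Sum.elim (fun i => rs Z (G i)) fun i => rs Z (H i)) _ (Sum.inr i)

/-- affinely independent exponents -/
lemma ind_of_affine {σ κ : Type} [IsEmpty κ] (G : κ → MvPolynomial σ k) (f : MvPolynomial σ k)
    (hf : AffineIndependent ℚ fun m : f.support => fun s => (((m : σ →₀ ℕ) s : ℕ) : ℚ)) :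
    IndS G fun _ : Fin 1 => f := by
  intro n hn hn1 i m hm
  have h0 : dif G = ∅ := by
    ext g
    constructor
    · rintro ⟨i, _⟩
      exact (IsEmpty.false i).elim
    · exact fun h => absurd h (Set.notMem_empty g)
  rw [h0, Submodule.span_empty, Submodule.mem_bot] at hn1
  have hi : i = 0 := Subsingleton.elim _ _
  subst hi
  have h1 := hn 0
  rw [Fin.sum_univ_one] at hn1
  have h2 := affineIndependent_iff.mp hf Finset.univ (fun j => (n 0 j : ℚ)) (by
    have h3 := congrArg (Int.cast : ℤ → ℚ) h1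
    rw [← Finset.sum_coe_sort] at h3
    push_cast at h3
    exact h3) (by
    have h3 := congrArg qv hn1
    rw [← Finset.sum_coe_sort, qv_sum, qv_zero] at h3
    rw [← h3]
    refine Finset.sum_congr rfl fun j _ => ?_
    rw [qv_smul]
    rfl) ⟨m, hm⟩ (Finset.mem_univ _)
  exact_mod_cast h2

end

end Pool.Agent.U672.TC
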