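import Pool.Agent.U672.TC.Tor

/-!
# Coverings by roots of monomials
-/

set_option autoImplicit false

open CategoryTheory AlgebraicGeometry MvPolynomial Pool.Agent.Y116.UV Pool.Agent.Z125.UN
  Pool.Agent.U738.BN Pool.Agent.U672.ST

namespace Pool.Agent.U672.TC

section ren

variable {R : Type} [CommRing R] {σ σ' κ κ' : Type} {G : κ → MvPolynomial σ R}
  {w : MvPolynomial σ R} {G' : κ' → MvPolynomial σ' R} {w' : MvPolynomial σ' R}

/-- changes of the names of the variables -/
noncomputable def pcRen (e : σ ≃ σ') (h1 : ∀ k, pc G' w' (rename e (G k)) = 0)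
    (h2 : IsUnit (pc G' w' (rename e w))) (h3 : ∀ k, pc G w (rename e.symm (G' k)) = 0)
    (h4 : IsUnit (pc G w (rename e.symm w'))) : Pc G w ≃ₐ[R] Pc G' w' :=
  pcEquiv (fun s => pv G' w' (e s))
    (fun k => by
      have h := h1 k
      rw [← pc_aeval, aeval_rename] at h
      exact h)
    (by
      have h := h2
      rw [← pc_aeval, aeval_rename] at h
      exact h)
    (fun s => pv G w (e.symm s))
    (fun k => by
      have h := h3 k
      rw [← pc_aeval, aeval_rename] at h
      exact h)
    (by
      have h := h4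
      rw [← pc_aeval, aeval_rename] at h
      exact h)
    (fun s => by rw [pcLift_pv, Equiv.symm_apply_apply])
    (fun s => by rw [pcLift_pv, Equiv.apply_symm_apply])

end ren

section multi

variable {R : Type} [CommRing R] {σ τ κ : Type}

/-- the relations of the covering `v j ^ D = u j` -/
noncomputable def mG (G : κ → MvPolynomial σ R) (u : τ → MvPolynomial σ R) (D : ℕ) :
    κ ⊕ τ → MvPolynomial (σ ⊕ τ) R :=
  Sum.elim (fun k => rename Sum.inl (G k)) fun j => X (Sum.inr j) ^ D - rename Sum.inl (u j)

variable {k : Type} [Field k] {P : Sch k → Prop}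

lemma p_multi (hP : BndT P) [Finite σ] {G : κ → MvPolynomial σ k} {w : MvPolynomial σ k} {D : ℕ}
    (hD : D ≠ 0) (τ : Type) [Finite τ] : ∀ (u : τ → MvPolynomial σ k),
      P (aff k (Pc (mG G u D) (rename Sum.inl w))) → P (aff k (Pc G w)) := by
  refine Finite.induction_empty_option (P := fun τ => Finite τ → ∀ u : τ → MvPolynomial σ k,
    P (aff k (Pc (mG G u D) (rename Sum.inl w))) → P (aff k (Pc G w))) ?_ ?_ ?_ τ inferInstance
  · intro α β e ih hβ u h
    have hα : Finite α := Finite.of_equiv β e.symm
    let E : σ ⊕ β ≃ σ ⊕ α := Equiv.sumCongr (Equiv.refl σ) e.symm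
    have e1 : ∀ p : MvPolynomial σ k, rename E (rename Sum.inl p) = rename Sum.inl p := by
      intro p
      rw [rename_rename]
      rfl
    have e2 : ∀ p : MvPolynomial σ k, rename E.symm (rename Sum.inl p) = rename Sum.inl p := by
      intro p
      rw [rename_rename]
      rfl
    refine ih hα (u ∘ e) (iso_alg hP.toUni (pcRen E ?_ ?_ ?_ ?_) h)
    · rintro (i | j)
      · change pc _ _ (rename E (rename Sum.inl (G i))) = 0
        rw [e1]
        exact pc_rel (mG G (u ∘ e) D) _ (Sum.inl i)
      · change pc _ _ (rename E (X (Sum.inr j) ^ D - rename Sum.inl (u j))) = 0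
        rw [map_sub, map_pow, rename_X, e1]
        have h1 := pc_rel (mG G (u ∘ e) D) (rename Sum.inl w) (Sum.inr (e.symm j))
        change pc _ _ (X (Sum.inr (e.symm j)) ^ D - rename Sum.inl (u (e (e.symm j)))) = 0 at h1
        rw [Equiv.apply_symm_apply] at h1
        exact h1
    · rw [e1]
      exact pc_unit _ _
    · rintro (i | j)
      · change pc _ _ (rename E.symm (rename Sum.inl (G i))) = 0
        rw [e2]
        exact pc_rel (mG G u D) _ (Sum.inl i)
      · change pc _ _ (rename E.symm (X (Sum.inr j) ^ D - rename Sum.inl (u (e j)))) = 0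
        rw [map_sub, map_pow, rename_X, e2]
        exact pc_rel (mG G u D) (rename Sum.inl w) (Sum.inr (e j))
    · rw [e2]
      exact pc_unit _ _
  · intro _ u h
    have e1 : ∀ p : MvPolynomial σ k,
        rename (Equiv.sumEmpty σ PEmpty) (rename Sum.inl p) = p := by
      intro p
      rw [rename_rename]
      have h1 : (⇑(Equiv.sumEmpty σ PEmpty) ∘ Sum.inl) = id := rfl
      rw [h1, rename_id_apply]
    refine iso_alg hP.toUni (pcRen (Equiv.sumEmpty σ PEmpty) ?_ ?_ ?_ ?_) h
    · rintro (i | j)
      · change pc _ _ (rename _ (rename Sum.inl (G i))) = 0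
        rw [e1]
        exact pc_rel G _ i
      · exact j.elim
    · rw [e1]
      exact pc_unit _ _
    · intro i
      exact pc_rel (mG G u D) (rename Sum.inl w) (Sum.inl i)
    · exact pc_unit (mG G u D) (rename Sum.inl w)
  · intro α _ ih _ u h
    refine ih inferInstance (u ∘ some) (p_cover hP (rename Sum.inl (u none)) hD ?_)
    let E : σ ⊕ Option α ≃ (σ ⊕ α) ⊕ Unit :=
      (Equiv.sumCongr (Equiv.refl σ) (Equiv.optionEquivSumPUnit α)).trans
        (Equiv.sumAssoc σ α Unit).symm
    have e1 : ∀ p : MvPolynomial σ k,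
        rename E (rename Sum.inl p) = rename Sum.inl (rename Sum.inl p) := by
      intro p
      rw [rename_rename, rename_rename]
      rfl
    have e2 : ∀ p : MvPolynomial σ k,
        rename E.symm (rename Sum.inl (rename Sum.inl p)) = rename Sum.inl p := by
      intro p
      rw [← e1, rename_rename, Equiv.symm_comp_self, rename_id_apply]
    refine iso_alg hP.toUni (pcRen E ?_ ?_ ?_ ?_) h
    · rintro (i | _ | j)
      · change pc _ _ (rename E (rename Sum.inl (G i))) = 0
        rw [e1]
        exact pc_rel (cG (mG G (u ∘ some) D) (rename Sum.inl (u none)) D)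
          (rename Sum.inl (rename Sum.inl w)) (some (Sum.inl i))
      · change pc _ _ (rename E (X (Sum.inr none) ^ D - rename Sum.inl (u none))) = 0
        rw [map_sub, map_pow, rename_X, e1]
        exact pc_rel (cG (mG G (u ∘ some) D) (rename Sum.inl (u none)) D)
          (rename Sum.inl (rename Sum.inl w)) none
      · change pc _ _ (rename E (X (Sum.inr (some j)) ^ D - rename Sum.inl (u (some j)))) = 0
        rw [map_sub, map_pow, rename_X, e1]
        have h1 := pc_rel (cG (mG G (u ∘ some) D) (rename Sum.inl (u none)) D)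
          (rename Sum.inl (rename Sum.inl w)) (some (Sum.inr j))
        change pc _ _ (rename Sum.inl (X (Sum.inr j) ^ D - rename Sum.inl (u (some j)))) = 0 at h1
        rw [map_sub, map_pow, rename_X] at h1
        exact h1
    · rw [e1]
      exact pc_unit _ _
    · rintro (_ | i | j)
      · change pc _ _ (rename E.symm (xs ^ D - rename Sum.inl (rename Sum.inl (u none)))) = 0
        rw [map_sub, map_pow, e2, xs, rename_X]
        exact pc_rel (mG G u D) (rename Sum.inl w) (Sum.inr none)
      · change pc _ _ (rename E.symm (rename Sum.inl (rename Sum.inl (G i)))) = 0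
        rw [e2]
        exact pc_rel (mG G u D) (rename Sum.inl w) (Sum.inl i)
      · change pc _ _ (rename E.symm (rename Sum.inl (X (Sum.inr j) ^ D -
          rename Sum.inl (u (some j))))) = 0
        have e3 : (rename Sum.inl (X (Sum.inr j) ^ D - rename Sum.inl (u (some j))) :
            MvPolynomial ((σ ⊕ α) ⊕ Unit) k) = X (Sum.inl (Sum.inr j)) ^ D -
              rename Sum.inl (rename Sum.inl (u (some j))) := by
          rw [map_sub, map_pow, rename_X]
        rw [e3, map_sub, map_pow, e2, rename_X]
        exact pc_rel (mG G u D) (rename Sum.inl w) (Sum.inr (some j))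
    · rw [e2]
      exact pc_unit (mG G u D) (rename Sum.inl w)

end multi

section hom

variable {σ τ : Type} [Fintype σ] [Fintype τ] [DecidableEq σ] {A : Type} [CommRing A]

lemma um_hom (φ : (σ → ℤ) → Aˣ) (h : ∀ g g', φ (g + g') = φ g * φ g') (g : σ → ℤ) :
    um (fun s => φ (Pi.single s 1)) g = φ g := by
  let ψ : Multiplicative (σ → ℤ) →* Aˣ := MonoidHom.mk' (fun a => φ a.toAdd) fun a b => h _ _
  have h1 : g = ∑ i, g i • (Pi.single i 1 : σ → ℤ) := by
    conv_lhs => rw [← Finset.univ_sum_single g]
    refine Finset.sum_congr rfl fun i _ => ?_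
    rw [← Pi.single_smul, smul_eq_mul, mul_one]
  have h2 : ψ (Multiplicative.ofAdd g) = ∏ i, φ (Pi.single i 1) ^ g i := by
    conv_lhs => rw [h1, ofAdd_sum, map_prod]
    refine Finset.prod_congr rfl fun i _ => ?_
    rw [ofAdd_zsmul, map_zpow]
    rfl
  exact h2.symm

omit [DecidableEq σ] in
lemma um_mul (x y : σ → Aˣ) (g : σ → ℤ) : um (fun s => x s * y s) g = um x g * um y g := by
  rw [um, um, um, ← Finset.prod_mul_distrib]
  exact Finset.prod_congr rfl fun i _ => mul_zpow _ _ _

/-- the action of a torus on a monomial -/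
lemma um_twist (x : σ → Aˣ) (v : τ → Aˣ) (L : (σ → ℤ) →ₗ[ℤ] (τ → ℤ)) (g : σ → ℤ) :
    um (fun s => x s * um v (L (Pi.single s 1))) g = um x g * um v (L g) := by
  rw [um_mul]
  congr 1
  exact um_hom (fun g => um v (L g)) (fun g g' => by rw [map_add, um_add]) g

end hom

section cp

variable {k : Type} [Field k] {P : Sch k → Prop} {σ τ κ : Type} [Fintype σ] [Fintype τ]
  [DecidableEq σ] [DecidableEq τ] (G : κ → MvPolynomial σ k) (F : MvPolynomial τ k)
  (m : τ → σ →₀ ℕ) (N : ℕ)

/-- the polynomial `F (x ^ m)` -/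
noncomputable def subm : MvPolynomial σ k := aeval (fun j => (monomial (m j) (1 : k))) F

/-- the polynomial `F (v ^ N)` -/
noncomputable def powf : MvPolynomial τ k := aeval (fun j => X j ^ N) F

omit [Fintype τ] [DecidableEq σ] [DecidableEq τ] in
lemma aeval_subm {A : Type} [CommRing A] [Algebra k A] (x : σ → Aˣ) :
    aeval (fun s => (x s : A)) (subm F m) = aeval (fun j => (um x (zv (m j)) : A)) F := by
  have h : (aeval (fun s => (x s : A))).comp (aeval (fun j => (monomial (m j) (1 : k)))) =
      aeval (fun j => (um x (zv (m j)) : A)) := by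
    apply MvPolynomial.algHom_ext
    intro j
    rw [AlgHom.comp_apply, aeval_X, aeval_mono, map_one, one_mul, aeval_X]
  rw [subm, ← h]
  rfl

omit [Fintype τ] [DecidableEq τ] in
lemma aeval_powf {A : Type} [CommRing A] [Algebra k A] (v : τ → A) :
    aeval v (powf F N) = aeval (fun j => v j ^ N) F := by
  have h : (aeval v).comp (aeval (fun j => (X j ^ N : MvPolynomial τ k))) =
      aeval (fun j => v j ^ N) := by
    apply MvPolynomial.algHom_ext
    intro j
    rw [AlgHom.comp_apply, aeval_X, map_pow, aeval_X, aeval_X]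
  rw [powf, ← h]
  rfl

/-- the relations `x ^ m = 1` and `G = 0` -/
noncomputable def bG : κ ⊕ τ → MvPolynomial σ k :=
  Sum.elim G fun j => monomial (m j) 1 - 1

/-- the covering -/
abbrev CL : Type := Pc (mG (adj G (subm F m)) (fun j => monomial (m j) 1) N)
  (rename Sum.inl (tw k σ))

/-- the product -/
abbrev CR : Type := Pc (pG (fun _ : Unit => powf F N) (bG G m)) (pw (tw k τ) (tw k σ))

variable {m N} (hN : N ≠ 0) (L : (σ → ℤ) →ₗ[ℤ] (τ → ℤ))
  (hm : ∀ j, L (zv (m j)) = Pi.single j (N : ℤ))
  (hG : ∀ i, ∀ a ∈ (G i).support, ∀ b ∈ (G i).support, L (zv a) = L (zv b))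

variable (m N)

omit [Fintype τ] [DecidableEq σ] [DecidableEq τ] in
lemma cl_x (s : σ) : IsUnit (pv (mG (adj G (subm F m)) (fun j => monomial (m j) 1) N)
    (rename Sum.inl (tw k σ)) (Sum.inl s)) := by
  have h := pc_unit (mG (adj G (subm F m)) (fun j => monomial (m j) 1) N)
    (rename Sum.inl (tw k σ))
  rw [← pc_aeval, aeval_rename] at h
  exact units_of_tw _ h s

/-- the coordinates -/
noncomputable def clx (s : σ) : (CL G F m N)ˣ := (cl_x G F m N s).unit

omit [Fintype τ] [DecidableEq σ] [DecidableEq τ] in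
lemma cl_pow (j : τ) : (pv (mG (adj G (subm F m)) (fun j => monomial (m j) 1) N)
    (rename Sum.inl (tw k σ)) (Sum.inr j)) ^ N = (um (clx G F m N) (zv (m j)) : CL G F m N) := by
  have h := pc_rel (mG (adj G (subm F m)) (fun j => monomial (m j) 1) N)
    (rename Sum.inl (tw k σ)) (Sum.inr j)
  change pc _ _ (X (Sum.inr j) ^ N - rename Sum.inl (monomial (m j) 1)) = 0 at h
  rw [← pc_aeval, map_sub, map_pow, aeval_X, sub_eq_zero, aeval_rename] at h
  rw [h]
  exact aeval_mono1 (clx G F m N) (m j)

/-- the roots -/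
noncomputable def clv (hN : N ≠ 0) (j : τ) : (CL G F m N)ˣ :=
  ((isUnit_pow_iff hN).mp (by
    rw [cl_pow G F m N j]
    exact Units.isUnit _) :
    IsUnit (pv (mG (adj G (subm F m)) (fun j => monomial (m j) 1) N)
      (rename Sum.inl (tw k σ)) (Sum.inr j))).unit

omit [Fintype τ] [DecidableEq σ] [DecidableEq τ] in
lemma clv_pow (j : τ) : clv G F m N hN j ^ N = um (clx G F m N) (zv (m j)) :=
  Units.ext (cl_pow G F m N j)

omit [DecidableEq σ] [DecidableEq τ] in
lemma cr_v (j : τ) : IsUnit (pv (pG (fun _ : Unit => powf F N) (bG G m))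
    (pw (tw k τ) (tw k σ)) (Sum.inl j)) := by
  have h := pc_unit_left (pG (fun _ : Unit => powf F N) (bG G m))
    (rename Sum.inl (tw k τ)) (rename Sum.inr (tw k σ))
  rw [← pc_aeval, aeval_rename] at h
  exact units_of_tw _ h j

omit [DecidableEq σ] [DecidableEq τ] in
lemma cr_x (s : σ) : IsUnit (pv (pG (fun _ : Unit => powf F N) (bG G m))
    (pw (tw k τ) (tw k σ)) (Sum.inr s)) := by
  have h := pc_unit_right (pG (fun _ : Unit => powf F N) (bG G m))
    (rename Sum.inl (tw k τ)) (rename Sum.inr (tw k σ))
  rw [← pc_aeval, aeval_rename] at h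
  exact units_of_tw _ h s

/-- the roots -/
noncomputable def crv (j : τ) : (CR G F m N)ˣ := (cr_v G F m N j).unit

/-- the coordinates -/
noncomputable def crx (s : σ) : (CR G F m N)ˣ := (cr_x G F m N s).unit

omit [DecidableEq σ] [DecidableEq τ] in
lemma cr_m (j : τ) : um (crx G F m N) (zv (m j)) = 1 := by
  have h := pc_rel (pG (fun _ : Unit => powf F N) (bG G m)) (pw (tw k τ) (tw k σ))
    (Sum.inr (Sum.inr j))
  change pc _ _ (rename Sum.inr (monomial (m j) 1 - 1)) = 0 at h
  rw [← pc_aeval, aeval_rename, map_sub, sub_eq_zero] at h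
  have h2 := aeval_mono1 (R := k) (crx G F m N) (m j)
  exact Units.ext (h2.symm.trans (h.trans (map_one _)))

omit [DecidableEq σ] [DecidableEq τ] in
lemma cr_G (i : κ) : aeval (fun s => (crx G F m N s : CR G F m N)) (G i) = 0 := by
  have h := pc_rel (pG (fun _ : Unit => powf F N) (bG G m)) (pw (tw k τ) (tw k σ))
    (Sum.inr (Sum.inl i))
  change pc _ _ (rename Sum.inr (G i)) = 0 at h
  rw [← pc_aeval, aeval_rename] at h
  exact h

omit [DecidableEq σ] [DecidableEq τ] in
lemma cr_F : aeval (fun j => (crv G F m N j : CR G F m N) ^ N) F = 0 := by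
  have h := pc_rel (pG (fun _ : Unit => powf F N) (bG G m)) (pw (tw k τ) (tw k σ))
    (Sum.inl ())
  change pc _ _ (rename Sum.inl (powf F N)) = 0 at h
  rw [← pc_aeval, aeval_rename, aeval_powf] at h
  exact h

omit [Fintype τ] [DecidableEq σ] [DecidableEq τ] in
lemma cl_G (i : κ) : aeval (fun s => (clx G F m N s : CL G F m N)) (G i) = 0 := by
  have h := pc_rel (mG (adj G (subm F m)) (fun j => monomial (m j) 1) N)
    (rename Sum.inl (tw k σ)) (Sum.inl (some i))
  change pc _ _ (rename Sum.inl (G i)) = 0 at h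
  rw [← pc_aeval, aeval_rename] at h
  exact h

omit [Fintype τ] [DecidableEq σ] [DecidableEq τ] in
lemma cl_F : aeval (fun j => (um (clx G F m N) (zv (m j)) : CL G F m N)) F = 0 := by
  have h := pc_rel (mG (adj G (subm F m)) (fun j => monomial (m j) 1) N)
    (rename Sum.inl (tw k σ)) (Sum.inl none)
  change pc _ _ (rename Sum.inl (subm F m)) = 0 at h
  rw [← pc_aeval, aeval_rename] at h
  rw [← aeval_subm]
  exact h

include hG in
omit [DecidableEq τ] in
/-- homogeneous polynomials -/
lemma twist_G {A : Type} [CommRing A] [Algebra k A] (x : σ → Aˣ) (v : τ → Aˣ) (i : κ)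
    (h : aeval (fun s => (x s : A)) (G i) = 0) :
    aeval (fun s => ((x s * um v (L (Pi.single s 1)) : Aˣ) : A)) (G i) = 0 := by
  rcases (G i).support.eq_empty_or_nonempty with h0 | ⟨b, hb⟩
  · rw [support_eq_empty] at h0
    rw [h0, map_zero]
  · have h1 : aeval (fun s => ((x s * um v (L (Pi.single s 1)) : Aˣ) : A)) (G i) =
        aeval (fun s => (x s : A)) (G i) * um v (L (zv b)) := by
      rw [aeval_sum, aeval_sum, Finset.sum_mul]
      refine Finset.sum_congr rfl fun a ha => ?_
      rw [um_twist, hG i a ha b hb, Units.val_mul, mul_assoc]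
    rw [h1, h, zero_mul]

/-- to the product -/
noncomputable def cpa : σ ⊕ τ → CR G F m N :=
  Sum.elim (fun s => ((crx G F m N s * um (crv G F m N) (L (Pi.single s 1)) : (CR G F m N)ˣ) :
    CR G F m N)) fun j => (crv G F m N j : CR G F m N)

/-- from the product -/
noncomputable def cpb : τ ⊕ σ → CL G F m N :=
  Sum.elim (fun j => (clv G F m N hN j : CL G F m N)) fun s =>
    ((clx G F m N s * um (clv G F m N hN) ((-L) (Pi.single s 1)) : (CL G F m N)ˣ) : CL G F m N)

include hm hG in
lemma cpa_rel (i : Option κ ⊕ τ) :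
    aeval (cpa G F m N L) (mG (adj G (subm F m)) (fun j => monomial (m j) 1) N i) = 0 := by
  have key : ∀ j, um (fun s => crx G F m N s * um (crv G F m N) (L (Pi.single s 1))) (zv (m j)) =
      crv G F m N j ^ N := by
    intro j
    rw [um_twist, cr_m, one_mul, hm, um_single, zpow_natCast]
  rcases i with (_ | i) | j
  · change aeval _ (rename Sum.inl (subm F m)) = 0
    rw [aeval_rename]
    change aeval (fun s => ((crx G F m N s * um (crv G F m N) (L (Pi.single s 1)) :
      (CR G F m N)ˣ) : CR G F m N)) (subm F m) = 0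
    rw [aeval_subm]
    simp only [key, Units.val_pow_eq_pow_val]
    exact cr_F G F m N
  · change aeval _ (rename Sum.inl (G i)) = 0
    rw [aeval_rename]
    exact twist_G G L hG _ _ i (cr_G G F m N i)
  · change aeval _ (X (Sum.inr j) ^ N - rename Sum.inl (monomial (m j) 1)) = 0
    rw [map_sub, map_pow, aeval_X, aeval_rename]
    have h := aeval_mono1 (R := k)
      (fun s => crx G F m N s * um (crv G F m N) (L (Pi.single s 1))) (m j)
    rw [key, Units.val_pow_eq_pow_val] at h
    rw [sub_eq_zero]
    exact h.symm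

omit [DecidableEq τ] in
lemma cpa_unit : IsUnit (aeval (cpa G F m N L) (rename Sum.inl (tw k σ))) := by
  rw [aeval_rename]
  exact aeval_tw _ fun s => Units.isUnit _

include hm hG in
lemma cpb_rel (i : Unit ⊕ (κ ⊕ τ)) :
    aeval (cpb G F m N hN L) (pG (fun _ : Unit => powf F N) (bG G m) i) = 0 := by
  have hG' : ∀ i, ∀ a ∈ (G i).support, ∀ b ∈ (G i).support, (-L) (zv a) = (-L) (zv b) := by
    intro i a ha b hb
    rw [LinearMap.neg_apply, LinearMap.neg_apply, hG i a ha b hb]
  rcases i with i | i | j
  · change aeval _ (rename Sum.inl (powf F N)) = 0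
    rw [aeval_rename, aeval_powf]
    have h : (fun j => (cpb G F m N hN L ∘ Sum.inl) j ^ N) =
        fun j => (um (clx G F m N) (zv (m j)) : CL G F m N) := by
      funext j
      rw [← clv_pow G F m N hN, Units.val_pow_eq_pow_val]
      rfl
    rw [h]
    exact cl_F G F m N
  · change aeval _ (rename Sum.inr (G i)) = 0
    rw [aeval_rename]
    exact twist_G G (-L) hG' _ _ i (cl_G G F m N i)
  · change aeval _ (rename Sum.inr (monomial (m j) 1 - 1)) = 0
    rw [aeval_rename, map_sub, sub_eq_zero]
    have h := aeval_mono1 (R := k)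
      (fun s => clx G F m N s * um (clv G F m N hN) ((-L) (Pi.single s 1))) (m j)
    rw [um_twist, LinearMap.neg_apply, hm, um_neg, um_single, zpow_natCast,
      clv_pow G F m N hN, mul_inv_cancel, Units.val_one] at h
    exact h.trans (map_one _).symm

omit [DecidableEq τ] in
lemma cpb_unit : IsUnit (aeval (cpb G F m N hN L) (pw (tw k τ) (tw k σ))) := by
  rw [pw, map_mul, aeval_rename, aeval_rename]
  exact (aeval_tw _ fun s => Units.isUnit _).mul (aeval_tw _ fun s => Units.isUnit _)

/-- to the product -/
noncomputable def cpF : CL G F m N →ₐ[k] CR G F m N :=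
  pcLift _ _ (cpa G F m N L) (cpa_rel G F m N L hm hG) (cpa_unit G F m N L)

/-- from the product -/
noncomputable def cpH : CR G F m N →ₐ[k] CL G F m N :=
  pcLift _ _ (cpb G F m N hN L) (cpb_rel G F m N hN L hm hG) (cpb_unit G F m N hN L)

lemma cpF_x (s : σ) : Units.map (cpF G F m N L hm hG : CL G F m N →+* CR G F m N).toMonoidHom
    (clx G F m N s) = crx G F m N s * um (crv G F m N) (L (Pi.single s 1)) :=
  Units.ext (pcLift_pv _ _ _ (cpa_rel G F m N L hm hG) (cpa_unit G F m N L) (Sum.inl s))

lemma cpF_v (j : τ) : Units.map (cpF G F m N L hm hG : CL G F m N →+* CR G F m N).toMonoidHom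
    (clv G F m N hN j) = crv G F m N j :=
  Units.ext (pcLift_pv _ _ _ (cpa_rel G F m N L hm hG) (cpa_unit G F m N L) (Sum.inr j))

lemma cpH_x (s : σ) : Units.map
    (cpH G F m N hN L hm hG : CR G F m N →+* CL G F m N).toMonoidHom (crx G F m N s) =
      clx G F m N s * um (clv G F m N hN) ((-L) (Pi.single s 1)) :=
  Units.ext (pcLift_pv _ _ _ (cpb_rel G F m N hN L hm hG) (cpb_unit G F m N hN L) (Sum.inr s))

lemma cpH_v (j : τ) : Units.map
    (cpH G F m N hN L hm hG : CR G F m N →+* CL G F m N).toMonoidHom (crv G F m N j) =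
      clv G F m N hN j :=
  Units.ext (pcLift_pv _ _ _ (cpb_rel G F m N hN L hm hG) (cpb_unit G F m N hN L) (Sum.inl j))

/-- **The covering is a product.** -/
noncomputable def cpE : CL G F m N ≃ₐ[k] CR G F m N :=
  AlgEquiv.ofAlgHom (cpF G F m N L hm hG) (cpH G F m N hN L hm hG)
    (by
      apply pc_ext
      rintro (j | s)
      · have h := cpF_v G F m N hN L hm hG j
        rw [← cpH_v G F m N hN L hm hG j] at h
        exact congrArg Units.val h
      · have h : Units.map (cpF G F m N L hm hG : CL G F m N →+* CR G F m N).toMonoidHom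
            (Units.map (cpH G F m N hN L hm hG : CR G F m N →+* CL G F m N).toMonoidHom
              (crx G F m N s)) = crx G F m N s := by
          rw [cpH_x, map_mul, cpF_x, map_um]
          simp only [cpF_v]
          rw [LinearMap.neg_apply, um_neg, mul_inv_cancel_right]
        exact congrArg Units.val h)
    (by
      apply pc_ext
      rintro (s | j)
      · have h : Units.map (cpH G F m N hN L hm hG : CR G F m N →+* CL G F m N).toMonoidHom
            (Units.map (cpF G F m N L hm hG : CL G F m N →+* CR G F m N).toMonoidHom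
              (clx G F m N s)) = clx G F m N s := by
          rw [cpF_x, map_mul, cpH_x, map_um]
          simp only [cpH_v]
          rw [LinearMap.neg_apply, um_neg, inv_mul_cancel_right]
        exact congrArg Units.val h
      · have h := cpH_v G F m N hN L hm hG j
        rw [← cpF_v G F m N hN L hm hG j] at h
        exact congrArg Units.val h)

include hN hm hG in
/-- **Reduction.** -/
theorem cp_P (hP : BndT P) (h1 : P (aff k (Tor (fun _ : Unit => powf F N))))
    (h2 : P (aff k (Tor (bG G m)))) : P (aff k (Tor (adj G (subm F m)))) := by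
  apply p_multi hP hN τ (fun j => monomial (m j) 1)
  exact iso_alg hP.toUni (cpE G F m N hN L hm hG).symm (p_prod hP h1 h2)

end cp

end Pool.Agent.U672.TC
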