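import Pool.Agent.U672.TC.Par

/-!
# Dependent equations
-/

set_option autoImplicit false

open CategoryTheory AlgebraicGeometry MvPolynomial Pool.Agent.Y116.UV Pool.Agent.Z125.UN
  Pool.Agent.U738.BN Pool.Agent.U672.ST

namespace Pool.Agent.U672.TC

section

variable {k : Type} [Field k] {ι κ : Type} (G : κ → MvPolynomial ι k) (m0 m1 : κ → (ι →₀ ℕ))
  (i₀ : κ) (m2 : {m // m ∈ Rs G m0 m1 i₀})

open Classical in
/-- the other terms of the linear form -/
noncomputable def ot : MvPolynomial (Pr G m0 m1) k :=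
  C (coeff (m0 i₀) (G i₀)) + ∑ m' ∈ Finset.univ.erase m2, C (coeff m'.1 (G i₀)) * X ⟨i₀, m'⟩

open Classical in
/-- the substitution -/
noncomputable def psv (p : Pr G m0 m1) : MvPolynomial (Pr G m0 m1) k :=
  if p = ⟨i₀, m2⟩ then C (-(coeff m2.1 (G i₀))⁻¹) * ot G m0 m1 i₀ m2 else X p

/-- elimination of one parameter -/
noncomputable def psi : MvPolynomial (Pr G m0 m1) k →ₐ[k] MvPolynomial (Pr G m0 m1) k :=
  aeval (psv G m0 m1 i₀ m2)

lemma psi_ot : psi G m0 m1 i₀ m2 (ot G m0 m1 i₀ m2) = ot G m0 m1 i₀ m2 := by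
  classical
  rw [psi, ot, map_add, map_sum, aeval_C]
  congr 1
  refine Finset.sum_congr rfl fun m' hm' => ?_
  rw [map_mul, aeval_C, aeval_X, psv, if_neg]
  · rfl
  · intro h
    have h2 : m' = m2 := by
      have := (Sigma.mk.inj_iff.mp h).2
      exact eq_of_heq this
    exact (Finset.mem_erase.mp hm').1 h2

lemma mem_Rs_ne {i : κ} {m : ι →₀ ℕ} (h : m ∈ Rs G m0 m1 i) : coeff m (G i) ≠ 0 :=
  mem_support_iff.mp ((mem_Rs G m0 m1).mp h).2.2

lemma psi_lf : psi G m0 m1 i₀ m2 (lf G m0 m1 i₀) = 0 := by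
  classical
  have h1 : lf G m0 m1 i₀ = C (coeff m2.1 (G i₀)) * X ⟨i₀, m2⟩ + ot G m0 m1 i₀ m2 := by
    rw [lf, ot, ← Finset.add_sum_erase _ _ (Finset.mem_univ m2)]
    ring
  rw [h1, map_add, psi_ot, map_mul]
  have h2 : psi G m0 m1 i₀ m2 (X ⟨i₀, m2⟩) =
      C (-(coeff m2.1 (G i₀))⁻¹) * ot G m0 m1 i₀ m2 := by
    rw [psi, aeval_X, psv, if_pos rfl]
  have h3 : psi G m0 m1 i₀ m2 (C (coeff m2.1 (G i₀))) = C (coeff m2.1 (G i₀)) := by
    rw [psi, aeval_C]
    rfl
  rw [h2, h3, ← mul_assoc, ← C_mul, mul_neg, mul_inv_cancel₀ (mem_Rs_ne G m0 m1 m2.2), C_neg, C_1]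
  ring

lemma cc_ot : constantCoeff (ot G m0 m1 i₀ m2) = coeff (m0 i₀) (G i₀) := by
  classical
  rw [ot, map_add, map_sum, constantCoeff_C]
  have h : ∑ m' ∈ Finset.univ.erase m2, constantCoeff (C (coeff m'.1 (G i₀)) *
      (X ⟨i₀, m'⟩ : MvPolynomial (Pr G m0 m1) k)) = 0 :=
    Finset.sum_eq_zero fun m' _ => by rw [map_mul, constantCoeff_X, mul_zero]
  rw [h, add_zero]

lemma cc_lf (i : κ) : constantCoeff (lf G m0 m1 i) = coeff (m0 i) (G i) := by
  rw [lf, map_add, map_sum, constantCoeff_C]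
  have h : ∑ m' : {m // m ∈ Rs G m0 m1 i}, constantCoeff (C (coeff m'.1 (G i)) *
      (X ⟨i, m'⟩ : MvPolynomial (Pr G m0 m1) k)) = 0 :=
    Finset.sum_eq_zero fun m' _ => by rw [map_mul, constantCoeff_X, mul_zero]
  rw [h, add_zero]

lemma psi_fix (i : κ) (hi : i ≠ i₀) (m : ι →₀ ℕ) :
    psi G m0 m1 i₀ m2 (qq G m0 m1 i m) = qq G m0 m1 i m := by
  classical
  have h0 : ∀ m' : {m // m ∈ Rs G m0 m1 i}, psi G m0 m1 i₀ m2 (X ⟨i, m'⟩) = X ⟨i, m'⟩ := by
    intro m'
    rw [psi, aeval_X, psv, if_neg]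
    intro h
    exact hi (Sigma.mk.inj_iff.mp h).1
  have h00 : ∀ c : k, psi G m0 m1 i₀ m2 (C c) = C c := by
    intro c
    rw [psi, aeval_C]
    rfl
  rw [qq]
  split_ifs with h h1
  · exact h0 _
  · rw [map_mul, h00, lf, map_add, h00, map_sum]
    congr 2
    refine Finset.sum_congr rfl fun m' _ => ?_
    rw [map_mul, h00, h0]
  · exact map_one _

lemma qq_ne (hc : Ch G m0 m1) (i : κ) (hi : G i ≠ 0) (m : ι →₀ ℕ) : qq G m0 m1 i m ≠ 0 := by
  classical
  obtain ⟨h0, h1, h2⟩ := hc i hi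
  rw [qq]
  split_ifs with h h3
  · exact X_ne_zero _
  · intro h4
    have h5 := congrArg constantCoeff h4
    rw [map_mul, constantCoeff_C, cc_lf, map_zero] at h5
    exact mul_ne_zero (neg_ne_zero.mpr (inv_ne_zero (mem_support_iff.mp h1)))
      (mem_support_iff.mp h0) h5
  · exact one_ne_zero

lemma psi_qq_ne (hc : Ch G m0 m1) (i : κ) (hi : G i ≠ 0) (m : ι →₀ ℕ)
    (h : ¬ (i = i₀ ∧ m = m1 i₀)) : psi G m0 m1 i₀ m2 (qq G m0 m1 i m) ≠ 0 := by
  classical
  by_cases hi0 : i = i₀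
  · subst hi0
    obtain ⟨h0, h1, h2⟩ := hc i hi
    rw [qq]
    split_ifs with h3 h4
    · rw [psi, aeval_X, psv]
      split_ifs with h5
      · intro h6
        have h7 := congrArg constantCoeff h6
        rw [map_mul, constantCoeff_C, cc_ot, map_zero] at h7
        exact mul_ne_zero (neg_ne_zero.mpr (inv_ne_zero (mem_Rs_ne G m0 m1 m2.2)))
          (mem_support_iff.mp h0) h7
      · exact X_ne_zero _
    · exact absurd ⟨rfl, h4⟩ h
    · rw [map_one]
      exact one_ne_zero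
  · rw [psi_fix G m0 m1 i₀ m2 i hi0]
    exact qq_ne G m0 m1 hc i hi m

variable [Fintype κ]

lemma psi_pp_zero (h1 : m1 i₀ ∈ (G i₀).support) (e : κ → (ι →₀ ℕ) → ℕ)
    (he : e i₀ (m1 i₀) ≠ 0) : psi G m0 m1 i₀ m2 (pp G m0 m1 e) = 0 := by
  rw [pp, map_prod]
  refine Finset.prod_eq_zero (Finset.mem_univ i₀) ?_
  rw [map_prod]
  refine Finset.prod_eq_zero h1 ?_
  rw [map_pow, qq_lf, map_mul, psi_lf, mul_zero, zero_pow he]

lemma psi_pp_ne (hc : Ch G m0 m1) (e : κ → (ι →₀ ℕ) → ℕ) (he : e i₀ (m1 i₀) = 0) :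
    psi G m0 m1 i₀ m2 (pp G m0 m1 e) ≠ 0 := by
  rw [pp, map_prod]
  refine Finset.prod_ne_zero_iff.mpr fun i _ => ?_
  rw [map_prod]
  refine Finset.prod_ne_zero_iff.mpr fun m hm => ?_
  rw [map_pow]
  by_cases h : i = i₀ ∧ m = m1 i₀
  · obtain ⟨rfl, rfl⟩ := h
    rw [he, pow_zero]
    exact one_ne_zero
  · refine pow_ne_zero _ (psi_qq_ne G m0 m1 i₀ m2 hc i ?_ m h)
    intro h0
    rw [h0, support_zero] at hm
    exact absurd hm (Finset.notMem_empty m)

variable {P : Sch k → Prop} {N : ℕ} [Fintype ι]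

omit [Fintype κ] [Fintype ι] in
lemma dim_par [Finite (Pr G m0 m1)] (hcard : Nat.card (Pr G m0 m1) ≤ N) (I : Ideal (MvPolynomial (Pr G m0 m1) k)) :
    ringKrullDim (MvPolynomial (Pr G m0 m1) k ⧸ I) ≤ N := by
  refine (ringKrullDim_quotient_le _).trans ?_
  rw [MvPolynomial.ringKrullDim_of_isNoetherianRing, ringKrullDim_eq_zero_of_field, zero_add]
  exact_mod_cast hcard

/-- **The independent parameters.** -/
theorem few_P (hP : PosN True P N) (hc : Ch G m0 m1) (hcard : Nat.card (Pr G m0 m1) ≤ N) :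
    P (aff k (Tor G)) :=
  par_P G m0 m1 hP hc 0 (map_zero _) (dim_par G m0 m1 hcard _)

/-- **Dependent parameters.** -/
theorem dep_P (hP : PosN True P N) (hc : Ch G m0 m1) (b : κ → (ι →₀ ℕ) → ℤ)
    (hb0 : ∀ i, ∑ m ∈ (G i).support, b i m = 0)
    (hb1 : ∑ i, ∑ m ∈ (G i).support, b i m • zv m = 0) (hi : G i₀ ≠ 0)
    (m2 : {m // m ∈ Rs G m0 m1 i₀}) (hb : b i₀ (m1 i₀) ≠ 0)
    (hcard : Nat.card (Pr G m0 m1) ≤ N + 1) : P (aff k (Tor G)) := by
  let p := pp G m0 m1 (fun i m => (b i m).toNat) - pp G m0 m1 (fun i m => (-b i m).toNat)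
  have h1 : m1 i₀ ∈ (G i₀).support := (hc i₀ hi).2.1
  have hp0 : p ≠ 0 := by
    intro h
    have h2 := congrArg (psi G m0 m1 i₀ m2) h
    change psi G m0 m1 i₀ m2 (pp G m0 m1 (fun i m => (b i m).toNat) -
      pp G m0 m1 (fun i m => (-b i m).toNat)) = _ at h2
    rw [map_sub, map_zero, sub_eq_zero] at h2
    rcases lt_or_gt_of_ne hb with h3 | h3
    · rw [psi_pp_zero G m0 m1 i₀ m2 h1 (fun i m => (-b i m).toNat) (by omega)] at h2
      exact psi_pp_ne G m0 m1 i₀ m2 hc (fun i m => (b i m).toNat) (by omega) h2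
    · rw [psi_pp_zero G m0 m1 i₀ m2 h1 (fun i m => (b i m).toNat) (by omega)] at h2
      exact psi_pp_ne G m0 m1 i₀ m2 hc (fun i m => (-b i m).toNat) (by omega) h2.symm
  have hphi : phi G m0 m1 p = 0 := by
    change phi G m0 m1 (pp G m0 m1 (fun i m => (b i m).toNat) -
      pp G m0 m1 (fun i m => (-b i m).toNat)) = 0
    rw [map_sub, phi_pp G m0 m1 hc, phi_pp G m0 m1 hc, sub_eq_zero]
    congr 1
    rw [← mul_inv_eq_one, ← Finset.prod_inv_distrib, ← Finset.prod_mul_distrib]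
    have h2 : ∀ i, (∏ m ∈ (G i).support, rat G m0 i m ^ (b i m).toNat) *
        (∏ m ∈ (G i).support, rat G m0 i m ^ (-b i m).toNat)⁻¹ =
          um (tx G) (∑ m ∈ (G i).support, b i m • zv m) := by
      intro i
      rw [← Finset.prod_inv_distrib, ← Finset.prod_mul_distrib]
      have h3 : ∀ m ∈ (G i).support, rat G m0 i m ^ (b i m).toNat *
          (rat G m0 i m ^ (-b i m).toNat)⁻¹ = um (tx G) (b i m • (zv m - zv (m0 i))) := by
        intro m _
        rw [um_zsmul, ← zpow_natCast, ← zpow_natCast, ← zpow_neg, ← zpow_add,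
          ← sub_eq_add_neg, Int.toNat_sub_toNat_neg]
        rfl
      rw [Finset.prod_congr rfl h3]
      have h4 : ∀ s : Finset (ι →₀ ℕ), ∏ m ∈ s, um (tx G) (b i m • (zv m - zv (m0 i))) =
          um (tx G) (∑ m ∈ s, b i m • (zv m - zv (m0 i))) := by
        classical
        intro s
        induction s using Finset.induction_on with
        | empty => rw [Finset.prod_empty, Finset.sum_empty, um_zero]
        | insert a s ha ih => rw [Finset.prod_insert ha, Finset.sum_insert ha, um_add, ih]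
      rw [h4]
      congr 1
      simp only [smul_sub]
      rw [Finset.sum_sub_distrib, ← Finset.sum_smul, hb0, zero_smul, sub_zero]
    rw [Finset.prod_congr rfl fun i _ => h2 i]
    have h5 : ∀ s : Finset κ, ∏ i ∈ s, um (tx G) (∑ m ∈ (G i).support, b i m • zv m) =
        um (tx G) (∑ i ∈ s, ∑ m ∈ (G i).support, b i m • zv m) := by
      classical
      intro s
      induction s using Finset.induction_on with
      | empty => rw [Finset.prod_empty, Finset.sum_empty, um_zero]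
      | insert a s ha ih => rw [Finset.prod_insert ha, Finset.sum_insert ha, um_add, ih]
    rw [h5, hb1, um_zero]
  refine par_P G m0 m1 hP hc p hphi ?_
  have h2 : ringKrullDim (MvPolynomial (Pr G m0 m1) k ⧸ Ideal.span {p}) + 1 ≤
      ringKrullDim (MvPolynomial (Pr G m0 m1) k) :=
    ringKrullDim_quotient_succ_le_of_nonZeroDivisor (mem_nonZeroDivisors_of_ne_zero hp0)
  rw [MvPolynomial.ringKrullDim_of_isNoetherianRing, ringKrullDim_eq_zero_of_field, zero_add] at h2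
  have h3 : ringKrullDim (MvPolynomial (Pr G m0 m1) k ⧸ Ideal.span {p}) + 1 ≤
      ((N + 1 : ℕ) : WithBot ℕ∞) := h2.trans (by exact_mod_cast hcard)
  rw [ENat.WithBot.add_one_le_natCast_iff] at h3
  have h4 : ((N + 1 : ℕ) : WithBot ℕ∞) = (N : WithBot ℕ∞) + 1 := by push_cast; rfl
  rw [h4] at h3
  have h5 : (Set.range fun _ : Unit => p) = {p} := Set.range_const
  rw [h5]
  exact ENat.WithBot.lt_add_one_iff.mp h3

end

end Pool.Agent.U672.TC
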