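import Pool.Agent.U672.TC.Slice
import Pool.Agent.U672.ST.Mot
import Pool.Agent.U738.BN.Bnd

/-!
# Splitting off tori

Let `A` be generated by units `x i` and their inverses, and assume that `A` has the gradings given by
all linear forms which vanish on the lattice `Λ`. If the monomials in the `x i` with
exponents in `Λ` come from `D`, then `Spec A` is a product of a torus with a finite scheme over `D`.
-/

set_option autoImplicit false

open CategoryTheory AlgebraicGeometry Pool.Agent.Y116.UV Pool.Agent.U738.BN LaurentPolynomial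

namespace Pool.Agent.U672.TC

section units

variable {ι : Type} [Fintype ι] {A B : Type} [CommRing A] [CommRing B]

/-- the product of the powers of units -/
def um (x : ι → Aˣ) (g : ι → ℤ) : Aˣ := ∏ i, x i ^ g i

lemma um_add (x : ι → Aˣ) (g h : ι → ℤ) : um x (g + h) = um x g * um x h := by
  rw [um, um, um, ← Finset.prod_mul_distrib]
  exact Finset.prod_congr rfl fun i _ => zpow_add _ _ _

lemma um_zero (x : ι → Aˣ) : um x 0 = 1 := by
  rw [um]
  exact Finset.prod_eq_one fun i _ => zpow_zero _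

lemma um_neg (x : ι → Aˣ) (g : ι → ℤ) : um x (-g) = (um x g)⁻¹ := by
  rw [eq_inv_iff_mul_eq_one, ← um_add, neg_add_cancel, um_zero]

lemma um_zsmul (x : ι → Aˣ) (n : ℤ) (g : ι → ℤ) : um x (n • g) = um x g ^ n := by
  rw [um, um, ← Finset.prod_zpow]
  exact Finset.prod_congr rfl fun i _ => by
    rw [Pi.smul_apply, smul_eq_mul, mul_comm, zpow_mul]

lemma um_single [DecidableEq ι] (x : ι → Aˣ) (i : ι) (n : ℤ) : um x (Pi.single i n) = x i ^ n := by
  rw [um, Finset.prod_eq_single i]
  · rw [Pi.single_eq_same]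
  · intro j _ hj
    rw [Pi.single_eq_of_ne hj, zpow_zero]
  · intro h
    exact absurd (Finset.mem_univ i) h

lemma map_um (f : A →+* B) (x : ι → Aˣ) (g : ι → ℤ) :
    Units.map f.toMonoidHom (um x g) = um (fun i => Units.map f.toMonoidHom (x i)) g := by
  rw [um, um, map_prod]
  exact Finset.prod_congr rfl fun i _ => map_zpow _ _ _

end units

variable {R : Type} [CommRing R] {sep : Prop} {P : Sch R → Prop} {N : ℕ}

/-- As `Pos`, and the property is true for the affine schemes of dimension at most `N`. -/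
structure PosN (sep : Prop) (P : Sch R → Prop) (N : ℕ) : Prop extends Pos sep P where
  dim : ∀ (A : Type) [CommRing A] [Algebra R A] [Algebra.FiniteType R A], ringKrullDim A ≤ N →
    P (aff R A)

/-- the unit `T ^ n` -/
noncomputable def tu (A : Type) [CommRing A] (n : ℤ) : (LaurentPolynomial A)ˣ :=
  ⟨T n, T (-n), by rw [← T_add, add_neg_cancel, T_zero], by rw [← T_add, neg_add_cancel, T_zero]⟩

lemma tu_add (A : Type) [CommRing A] (m n : ℤ) : tu A (m + n) = tu A m * tu A n :=
  Units.ext (T_add m n)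

lemma tu_zero (A : Type) [CommRing A] : tu A 0 = 1 := Units.ext T_zero

lemma tu_zpow (A : Type) [CommRing A] (m n : ℤ) : tu A (n * m) = tu A m ^ n := by
  let φ : Multiplicative ℤ →* (LaurentPolynomial A)ˣ :=
    { toFun := fun a => tu A a.toAdd
      map_one' := tu_zero A
      map_mul' := fun a b => tu_add A _ _ }
  have h := map_zpow φ (Multiplicative.ofAdd m) n
  rw [← ofAdd_zsmul] at h
  exact h

/-- the grading on the monomials -/
lemma rho_um {ι A D : Type} [Fintype ι] [DecidableEq ι] [CommRing D] [CommRing A] [Algebra D A]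
    (x : ι → Aˣ)
    (l : (ι → ℤ) →ₗ[ℤ] ℤ) (ρ : A →ₐ[D] LaurentPolynomial A)
    (hρ : ∀ i, ρ (x i) = C (x i : A) * T (l (Pi.single i 1))) (g : ι → ℤ) :
    ρ (um x g : A) = C (um x g : A) * T (l g) := by
  have h1 : ∀ i, Units.map (ρ : A →+* LaurentPolynomial A).toMonoidHom (x i) =
      Units.map (C : A →+* LaurentPolynomial A).toMonoidHom (x i) * tu A (l (Pi.single i 1)) :=
    fun i => Units.ext (hρ i)
  have h2 := map_um (ρ : A →+* LaurentPolynomial A) x g
  have h3 : um (fun i => Units.map (ρ : A →+* LaurentPolynomial A).toMonoidHom (x i)) g =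
      Units.map (C : A →+* LaurentPolynomial A).toMonoidHom (um x g) * tu A (l g) := by
    rw [map_um, um, um]
    have h4 : tu A (l g) = ∏ i, tu A (l (Pi.single i 1)) ^ g i := by
      have h5 : l g = ∑ i, g i * l (Pi.single i 1) := by
        conv_lhs => rw [← Finset.univ_sum_single g]
        rw [map_sum]
        refine Finset.sum_congr rfl fun i _ => ?_
        have h6 : (Pi.single i (g i) : ι → ℤ) = g i • (Pi.single i 1 : ι → ℤ) := by
          rw [← Pi.single_smul, smul_eq_mul, mul_one]
        rw [h6, map_smul, smul_eq_mul]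
      rw [h5]
      have h6 : ∀ s : Finset ι, tu A (∑ i ∈ s, g i * l (Pi.single i 1)) =
          ∏ i ∈ s, tu A (l (Pi.single i 1)) ^ g i := by
        intro s
        induction s using Finset.induction_on with
        | empty => rw [Finset.sum_empty, Finset.prod_empty, tu_zero]
        | insert a s ha ih => rw [Finset.sum_insert ha, Finset.prod_insert ha, tu_add, ih, tu_zpow]
      exact h6 _
    rw [h4, ← Finset.prod_mul_distrib]
    refine Finset.prod_congr rfl fun i _ => ?_
    rw [h1, mul_zpow]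
  have h4 := congrArg Units.val (h2.trans h3)
  exact h4

/-- the maps on Laurent polynomials and the quotient -/
lemma integral_of_units {D A : Type} [CommRing D] [CommRing A] [Algebra D A] {ι : Type}
    (x : ι → Aˣ) (hx : Algebra.adjoin D (Set.range (fun i => (x i : A)) ∪
      Set.range (fun i => (((x i)⁻¹ : Aˣ) : A))) = ⊤)
    (h : ∀ i, ∃ n : ℕ, n ≠ 0 ∧ ((x i ^ n : Aˣ) : A) ∈ Set.range (algebraMap D A) ∧
      (((x i)⁻¹ ^ n : Aˣ) : A) ∈ Set.range (algebraMap D A)) : Algebra.IsIntegral D A := by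
  have h1 : ∀ a ∈ (Set.range (fun i => (x i : A)) ∪ Set.range (fun i => (((x i)⁻¹ : Aˣ) : A))),
      IsIntegral D a := by
    have h2 : ∀ (a : A) (n : ℕ), n ≠ 0 → a ^ n ∈ Set.range (algebraMap D A) → IsIntegral D a := by
      rintro a n hn ⟨d, hd⟩
      refine ⟨Polynomial.X ^ n - Polynomial.C d, Polynomial.monic_X_pow_sub_C _ hn, ?_⟩
      rw [Polynomial.eval₂_sub, Polynomial.eval₂_pow, Polynomial.eval₂_X, Polynomial.eval₂_C, hd,
        sub_self]
    rintro a (⟨i, rfl⟩ | ⟨i, rfl⟩)
    · obtain ⟨n, hn, hd, -⟩ := h i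
      rw [Units.val_pow_eq_pow_val] at hd
      exact h2 _ n hn hd
    · obtain ⟨n, hn, -, hd⟩ := h i
      rw [Units.val_pow_eq_pow_val] at hd
      exact h2 _ n hn hd
  refine ⟨fun a => ?_⟩
  have h2 : a ∈ Algebra.adjoin D (Set.range (fun i => (x i : A)) ∪
      Set.range (fun i => (((x i)⁻¹ : Aˣ) : A))) := by
    rw [hx]
    trivial
  exact (Algebra.adjoin_le (S := integralClosure D A) h1) h2

/-- linear forms -/
lemma torsion_of_forms {ι : Type} [Finite ι] (Λ : Submodule ℤ (ι → ℤ))
    (h : ∀ l : (ι → ℤ) →ₗ[ℤ] ℤ, (∀ g ∈ Λ, l g = 0) → l = 0) (g : ι → ℤ) :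
    ∃ n : ℕ, n ≠ 0 ∧ (n : ℤ) • g ∈ Λ := by
  have := Fintype.ofFinite ι
  let Q := (ι → ℤ) ⧸ Λ
  let F := Q ⧸ Submodule.torsion ℤ Q
  have hfin : Module.Finite ℤ F := inferInstance
  have hfree : Module.Free ℤ F := Module.free_of_finite_type_torsion_free'
  let b := Module.finBasis ℤ F
  let π : (ι → ℤ) →ₗ[ℤ] F := (Submodule.torsion ℤ Q).mkQ.comp Λ.mkQ
  have hπ : π = 0 := by
    apply LinearMap.ext
    intro v
    apply b.repr.injective
    apply Finsupp.ext
    intro i
    have h1 := h ((b.coord i).comp π) (by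
      intro w hw
      have h2 : Λ.mkQ w = 0 := (Submodule.Quotient.mk_eq_zero Λ).mpr hw
      change b.coord i ((Submodule.torsion ℤ Q).mkQ (Λ.mkQ w)) = 0
      rw [h2, map_zero, map_zero])
    have h2 := congrArg (fun f : (ι → ℤ) →ₗ[ℤ] ℤ => f v) h1
    change b.repr (π v) i = b.repr ((0 : (ι → ℤ) →ₗ[ℤ] F) v) i
    rw [LinearMap.zero_apply, map_zero]
    exact h2
  have h1 : π g = 0 := by
    rw [hπ]
    rfl
  have h2 : Λ.mkQ g ∈ Submodule.torsion ℤ Q := (Submodule.Quotient.mk_eq_zero _).mp h1
  obtain ⟨a, ha⟩ := (Submodule.mem_torsion_iff _).mp h2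
  have ha0 : (a : ℤ) ≠ 0 := nonZeroDivisors.coe_ne_zero a
  refine ⟨(a : ℤ).natAbs, Int.natAbs_ne_zero.mpr ha0, ?_⟩
  have h3 : (a : ℤ) • g ∈ Λ := (Submodule.Quotient.mk_eq_zero Λ).mp ha
  rcases Int.natAbs_eq (a : ℤ) with h4 | h4
  · rw [← h4]
    exact h3
  · have h5 : ((a : ℤ).natAbs : ℤ) = -(a : ℤ) := by omega
    rw [h5, neg_smul]
    exact Λ.neg_mem h3

/-- the grading on the quotient -/
lemma coact_quot {ι A D : Type} [CommRing D] [CommRing A] [Algebra D A] (x : ι → Aˣ) (l : ι → ℤ)
    (ρ : A →ₐ[D] LaurentPolynomial A) (hρ : ∀ i, ρ (x i) = C (x i : A) * T (l i)) (u : Aˣ)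
    (hu : ρ u = C (u : A)) :
    ∃ ρ' : (A ⧸ Ideal.span {(u : A) - 1}) →ₐ[D] LaurentPolynomial (A ⧸ Ideal.span {(u : A) - 1}),
      ∀ i, ρ' (Ideal.Quotient.mk _ (x i)) = C (Ideal.Quotient.mk _ (x i : A)) * T (l i) := by
  let q := Ideal.Quotient.mkₐ D (Ideal.span {(u : A) - 1})
  have hq : q (u : A) = 1 := by
    have h : Ideal.Quotient.mk (Ideal.span {(u : A) - 1}) ((u : A) - 1) = 0 :=
      Ideal.Quotient.eq_zero_iff_mem.mpr (Ideal.subset_span rfl)
    rw [map_sub, map_one, sub_eq_zero] at h
    exact h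
  refine ⟨Ideal.Quotient.liftₐ _ ((lmap q).comp ρ) ?_, fun i => ?_⟩
  · intro a ha
    obtain ⟨b, rfl⟩ := Ideal.mem_span_singleton'.mp ha
    have h : (lmap q).comp ρ ((u : A) - 1) = 0 := by
      rw [map_sub, AlgHom.comp_apply, hu, lmap_C, hq, map_one, map_one, sub_self]
    rw [map_mul, h, mul_zero]
  · change (lmap q) (ρ (x i)) = _
    rw [hρ, map_mul, lmap_C, lmap_T]
    rfl

lemma adjoin_up {A : Type} [CommRing A] [Algebra R A] (D : Type) [CommRing D] [Algebra R D]
    [Algebra D A] [IsScalarTower R D A] (s : Set A) (h : Algebra.adjoin R s = ⊤) :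
    Algebra.adjoin D s = ⊤ := by
  rw [eq_top_iff]
  rintro a -
  have ha : a ∈ Algebra.adjoin R s := by
    rw [h]
    trivial
  induction ha using Algebra.adjoin_induction with
  | mem x hx => exact Algebra.subset_adjoin hx
  | algebraMap r =>
    rw [IsScalarTower.algebraMap_apply R D A]
    exact Subalgebra.algebraMap_mem _ _
  | add x y _ _ hx hy => exact Subalgebra.add_mem _ hx hy
  | mul x y _ _ hx hy => exact Subalgebra.mul_mem _ hx hy

/-- **The engine.** -/
theorem engine (hP : PosN sep P N) {ι : Type} [Fintype ι] [DecidableEq ι] (D : Type) [CommRing D]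
    [Algebra R D] [Algebra.FiniteType R D] (hD : ringKrullDim D ≤ N) (Λ : Submodule ℤ (ι → ℤ)) :
    ∀ (A : Type) [CommRing A] [Algebra R A] [Algebra D A] [IsScalarTower R D A] (x : ι → Aˣ),
      Algebra.adjoin R (Set.range (fun i => (x i : A)) ∪
        Set.range (fun i => (((x i)⁻¹ : Aˣ) : A))) = ⊤ →
      (∀ l : (ι → ℤ) →ₗ[ℤ] ℤ, (∀ g ∈ Λ, l g = 0) → ∃ ρ : A →ₐ[R] LaurentPolynomial A,
        ∀ i, ρ (x i) = C (x i : A) * T (l (Pi.single i 1))) →
      (∀ g ∈ Λ, (um x g : A) ∈ Set.range (algebraMap D A)) →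
      Algebra.FiniteType R A ∧ P (aff R A) := by
  induction Λ using WellFoundedGT.induction with
  | _ Λ ih =>
  intro A _ _ _ _ x hx hco hΛ
  have hft : Algebra.FiniteType R A := by
    refine ⟨⟨(Set.toFinite (Set.range (fun i => (x i : A)) ∪
      Set.range (fun i => (((x i)⁻¹ : Aˣ) : A)))).toFinset, ?_⟩⟩
    rw [Set.Finite.coe_toFinset]
    exact hx
  refine ⟨hft, ?_⟩
  by_cases hl : ∀ l : (ι → ℤ) →ₗ[ℤ] ℤ, (∀ g ∈ Λ, l g = 0) → l = 0
  · have hint : Algebra.IsIntegral D A := by
      refine integral_of_units x ?_ ?_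
      · exact adjoin_up D _ hx
      intro i
      obtain ⟨n, hn, hm⟩ := torsion_of_forms Λ hl (Pi.single i 1)
      refine ⟨n, hn, ?_, ?_⟩
      · have h := hΛ _ hm
        rw [um_zsmul, um_single, zpow_one, zpow_natCast] at h
        exact h
      · have h := hΛ _ (Λ.neg_mem hm)
        rw [um_neg, um_zsmul, um_single, zpow_one, zpow_natCast, ← inv_pow] at h
        exact h
    exact hP.dim A ((Pool.Agent.U672.ST.dim_integral (A := D) A).trans hD)
  · push Not at hl
    obtain ⟨l, hl, hl0⟩ := hl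
    -- make the form surjective
    obtain ⟨d, hd⟩ := (IsPrincipalIdealRing.principal (LinearMap.range l)).principal
    have hd0 : d ≠ 0 := by
      intro h
      apply hl0
      apply LinearMap.ext
      intro v
      have h1 : l v ∈ LinearMap.range l := ⟨v, rfl⟩
      rw [hd, h] at h1
      obtain ⟨c, hc⟩ := Submodule.mem_span_singleton.mp h1
      rw [← hc, smul_zero]
      rfl
    have hdiv : ∀ v, ∃ c, l v = c * d := by
      intro v
      have h1 : l v ∈ LinearMap.range l := ⟨v, rfl⟩
      rw [hd] at h1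
      obtain ⟨c, hc⟩ := Submodule.mem_span_singleton.mp h1
      exact ⟨c, hc.symm⟩
    choose c hc using hdiv
    let m : (ι → ℤ) →ₗ[ℤ] ℤ :=
      { toFun := c
        map_add' := fun v w => by
          have h : (c (v + w)) * d = (c v + c w) * d := by
            rw [← hc, map_add, hc v, hc w]
            ring
          exact mul_right_cancel₀ hd0 h
        map_smul' := fun n v => by
          have h : (c (n • v)) * d = (n * c v) * d := by
            rw [← hc, map_smul, hc v, smul_eq_mul]
            ring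
          exact mul_right_cancel₀ hd0 h }
    have hm : ∀ v, l v = m v * d := hc
    have hm0 : ∀ g ∈ Λ, m g = 0 := by
      intro g hg
      have h := hl g hg
      rw [hm] at h
      exact (mul_eq_zero.mp h).resolve_right hd0
    obtain ⟨a, ha⟩ : ∃ a, m a = 1 := by
      have h1 : d ∈ LinearMap.range l := by
        rw [hd]
        exact Submodule.mem_span_singleton_self d
      obtain ⟨a, ha⟩ := h1
      refine ⟨a, ?_⟩
      rw [hm] at ha
      exact mul_right_cancel₀ hd0 (ha.trans (one_mul d).symm)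
    obtain ⟨ρ, hρ⟩ := hco m hm0
    let u : Aˣ := um x a
    have hu : ρ u = C (u : A) * T 1 := by
      rw [rho_um x m ρ hρ a, ha]
    let A' := A ⧸ Ideal.span {(u : A) - 1}
    -- the generators
    let y : ι ⊕ ι → A := Sum.elim (fun i => (x i : A)) (fun i => (((x i)⁻¹ : Aˣ) : A))
    have hy : Algebra.adjoin R (Set.range y) = ⊤ := by
      rw [Set.Sum.elim_range]
      exact hx
    have hyρ : ∀ i, ρ (y i) = C (y i) * T (Sum.elim (fun i => m (Pi.single i 1))
        (fun i => m (-(Pi.single i 1))) i) := by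
      rintro (i | i)
      · exact hρ i
      · have h := rho_um x m ρ hρ (-(Pi.single i 1))
        rw [um_neg, um_single, zpow_one] at h
        exact h
    have e : A ≃ₐ[R] LaurentPolynomial A' := sliceE y hy _ ρ hyρ u hu
    let q : A →+* A' := Ideal.Quotient.mk _
    have hqu : q u = 1 := by
      have h : q ((u : A) - 1) = 0 := Ideal.Quotient.eq_zero_iff_mem.mpr (Ideal.subset_span rfl)
      rw [map_sub, map_one, sub_eq_zero] at h
      exact h
    let x' : ι → A'ˣ := fun i => Units.map q.toMonoidHom (x i)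
    obtain ⟨h1, h2⟩ := ih (Λ ⊔ Submodule.span ℤ {a}) (by
      refine lt_of_le_of_ne le_sup_left fun he => ?_
      have h : a ∈ Λ := by
        rw [he]
        exact Submodule.mem_sup_right (Submodule.mem_span_singleton_self a)
      have h1 := hm0 a h
      rw [ha] at h1
      exact one_ne_zero h1) A' x' (by
      have h : (Set.range (fun i => (x' i : A')) ∪ Set.range (fun i => (((x' i)⁻¹ : A'ˣ) : A'))) =
          (Ideal.Quotient.mkₐ R (Ideal.span {(u : A) - 1})) '' (Set.range (fun i => (x i : A)) ∪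
        Set.range (fun i => (((x i)⁻¹ : Aˣ) : A))) := by
        rw [Set.image_union, ← Set.range_comp, ← Set.range_comp]
        congr 1
      rw [h, ← AlgHom.map_adjoin, hx, Algebra.map_top, AlgHom.range_eq_top]
      exact Ideal.Quotient.mkₐ_surjective R _) (by
      intro l' hl'
      obtain ⟨ρ', hρ'⟩ := hco l' fun g hg => hl' g (Submodule.mem_sup_left hg)
      have h3 : ρ' u = C (u : A) := by
        rw [rho_um x l' ρ' hρ' a, hl' a (Submodule.mem_sup_right
          (Submodule.mem_span_singleton_self a)), T_zero, mul_one]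
      exact coact_quot x _ ρ' hρ' u h3) (by
      intro g hg
      obtain ⟨g1, hg1, g2, hg2, rfl⟩ := Submodule.mem_sup.mp hg
      obtain ⟨n, rfl⟩ := Submodule.mem_span_singleton.mp hg2
      obtain ⟨b, hb⟩ := hΛ g1 hg1
      refine ⟨b, ?_⟩
      have h3 : um x' (n • a) = 1 := by
        rw [um_zsmul]
        have h4 : um x' a = 1 := by
          rw [← map_um]
          exact Units.ext hqu
        rw [h4, one_zpow]
      rw [um_add, h3, mul_one, ← map_um]
      change _ = q (um x g1 : A)
      rw [← hb]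
      rfl)
    have h3 : Algebra.FiniteType R (LaurentPolynomial A') := ft_laurent _
    exact pos_alg hP.toPos e.symm (hP.times _ h2)

end Pool.Agent.U672.TC
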