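import Pool.Agent.U672.TC.Sys

/-!
# Systems of small excess and independent equations
-/

set_option autoImplicit false

open CategoryTheory AlgebraicGeometry MvPolynomial Pool.Agent.Y116.UV Pool.Agent.Z125.UN
  Pool.Agent.U738.BN Pool.Agent.U672.ST

namespace Pool.Agent.U672.TC

section

variable {k : Type} [Field k] {ι κ ρ : Type}

/-- The exponents of the polynomials `H i` are independent modulo the differences of the exponents of
the `G j`: if integers `n i m` satisfy `∑ m, n i m = 0` for all `i`, and if `∑ n i m • m` is in the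
lattice generated by the differences of exponents of each `G j`, then `n i m = 0` for all exponents `m`
of `H i`. -/
def IndS [Fintype ρ] (G : κ → MvPolynomial ι k) (H : ρ → MvPolynomial ι k) : Prop :=
  ∀ n : ρ → (ι →₀ ℕ) → ℤ, (∀ i, ∑ m ∈ (H i).support, n i m = 0) →
    ∑ i, ∑ m ∈ (H i).support, n i m • zv m ∈ Submodule.span ℤ (dif G) →
      ∀ i, ∀ m ∈ (H i).support, n i m = 0

open Classical in
/-- functions on the exponents -/
noncomputable def onS (f : MvPolynomial ι k) (n : f.support → ℤ) (m : ι →₀ ℕ) : ℤ :=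
  if h : m ∈ f.support then n ⟨m, h⟩ else 0

lemma onS_mem (f : MvPolynomial ι k) (n : f.support → ℤ) (j : f.support) :
    onS f n j = n j := by
  rw [onS, dif_pos j.2]

lemma sum_onS (f : MvPolynomial ι k) (n : f.support → ℤ) :
    ∑ m ∈ f.support, onS f n m = ∑ j, n j := by
  rw [← Finset.sum_coe_sort]
  exact Finset.sum_congr rfl fun j _ => onS_mem f n j

lemma sum_onS_smul (f : MvPolynomial ι k) (n : f.support → ℤ) :
    ∑ m ∈ f.support, onS f n m • zv m = ∑ j, n j • zv (j : ι →₀ ℕ) := by
  rw [← Finset.sum_coe_sort]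
  exact Finset.sum_congr rfl fun j _ => by rw [onS_mem]

lemma dif_elim (G : κ → MvPolynomial ι k) (H : ρ → MvPolynomial ι k) (g : ι → ℤ)
    (hg : g ∈ Submodule.span ℤ (dif (Sum.elim G H))) :
    ∃ a ∈ Submodule.span ℤ (dif G), ∃ b ∈ Submodule.span ℤ (dif H), g = a + b := by
  have h1 : dif (Sum.elim G H) ⊆ dif G ∪ dif H := by
    rintro g ⟨i | i, a, ha, b, hb, rfl⟩
    · exact Or.inl ⟨i, a, ha, b, hb, rfl⟩
    · exact Or.inr ⟨i, a, ha, b, hb, rfl⟩
  have h2 := Submodule.span_mono h1 hg
  rw [Submodule.span_union] at h2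
  obtain ⟨a, ha, b, hb, h⟩ := Submodule.mem_sup.mp h2
  exact ⟨a, ha, b, hb, h.symm⟩

/-- the first of the independent equations -/
lemma ind_first {r : ℕ} (G : κ → MvPolynomial ι k) (H : Fin (r + 1) → MvPolynomial ι k)
    (hI : IndS G H) : Ind (Sum.elim G fun i : Fin r => H i.succ) (H 0) := by
  intro n hn hn1
  obtain ⟨a, ha, b, hb, hab⟩ := dif_elim _ _ _ hn1
  obtain ⟨c, hc, rfl⟩ := span_dif _ _ hb
  have h1 := hI (Fin.cases (onS (H 0) n) fun i m => -c i m) (by
    intro i
    induction i using Fin.cases with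
    | zero =>
      change ∑ m ∈ (H 0).support, onS (H 0) n m = 0
      rw [sum_onS, hn]
    | succ i =>
      change ∑ m ∈ (H i.succ).support, -c i m = 0
      rw [Finset.sum_neg_distrib, hc i, neg_zero]) (by
    rw [Fin.sum_univ_succ]
    change ∑ m ∈ (H 0).support, onS (H 0) n m • zv m +
      ∑ i : Fin r, ∑ m ∈ (H i.succ).support, (-c i m) • zv m ∈ _
    rw [sum_onS_smul, hab]
    have h2 : ∑ i : Fin r, ∑ m ∈ (H i.succ).support, (-c i m) • zv m =
        -∑ i : Fin r, ∑ m ∈ (H i.succ).support, c i m • zv m := by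
      rw [← Finset.sum_neg_distrib]
      refine Finset.sum_congr rfl fun i _ => ?_
      rw [← Finset.sum_neg_distrib]
      exact Finset.sum_congr rfl fun m _ => neg_smul _ _
    rw [h2, add_neg_cancel_right]
    exact ha) 0
  funext j
  have h2 := h1 j j.2
  change onS (H 0) n j = 0 at h2
  rw [onS_mem] at h2
  exact h2

/-- the lattice of the replaced system -/
lemma dif_rep (G : κ → MvPolynomial ι k) (f : MvPolynomial ι k) (g : (ι ⊕ Unit) → ℤ)
    (hg : g ∈ Submodule.span ℤ (dif (rep G f))) :
    ∃ c : f.support → ℤ, resr g = ∑ j, c j ∧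
      resl g - ∑ j, c j • zv (j : ι →₀ ℕ) ∈ Submodule.span ℤ (dif G) := by
  classical
  induction hg using Submodule.span_induction with
  | mem g hg =>
    obtain ⟨i | j, a, ha, b, hb, rfl⟩ := hg
    · have h1 : zv a - zv b ∈ Submodule.span ℤ (dif (rl G Unit)) :=
        Submodule.subset_span ⟨i, a, ha, b, hb, rfl⟩
      obtain ⟨h2, h3⟩ := dif_rl G _ h1
      refine ⟨0, ?_, ?_⟩
      · rw [h2]
        exact (Finset.sum_eq_zero fun j _ => rfl).symm
      · have h4 : ∑ j : f.support, (0 : f.support → ℤ) j • zv (j : ι →₀ ℕ) = 0 :=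
          Finset.sum_eq_zero fun j _ => zero_smul ℤ _
        rw [h4, sub_zero]
        exact h3
    · have h1 : ∀ a ∈ (rep G f (Sum.inr j)).support, ∃ e : ℤ, resr (zv a) = e ∧
          resl (zv a) = e • zv (j : ι →₀ ℕ) := by
        intro a ha
        have h2 : a = he (j : ι →₀ ℕ) ∨ a = 0 := by
          rcases Finset.mem_union.mp (support_sub _ _ _ ha) with h | h
          · exact Or.inl (Finset.mem_singleton.mp (support_monomial_subset h))
          · rw [support_one, Finset.mem_singleton] at h
            exact Or.inr h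
        rcases h2 with rfl | rfl
        · refine ⟨1, zv_he_inr _ (), ?_⟩
          rw [one_smul]
          funext s
          exact zv_he_inl _ s
        · refine ⟨0, rfl, ?_⟩
          rw [zero_smul]
          funext s
          rfl
      obtain ⟨e, h2, h3⟩ := h1 a ha
      obtain ⟨e', h2', h3'⟩ := h1 b hb
      refine ⟨Pi.single j (e - e'), ?_, ?_⟩
      · rw [map_sub, h2, h2', Finset.sum_pi_single']
        simp
      · have h4 : ∑ j' : f.support, (Pi.single j (e - e') : f.support → ℤ) j' •
            zv (j' : ι →₀ ℕ) = (e - e') • zv (j : ι →₀ ℕ) := by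
          rw [Finset.sum_eq_single j]
          · rw [Pi.single_eq_same]
          · intro j' _ h
            rw [Pi.single_eq_of_ne h, zero_smul]
          · intro h
            exact absurd (Finset.mem_univ j) h
        rw [h4, map_sub, h3, h3', sub_smul, sub_self]
        exact Submodule.zero_mem _
  | zero =>
    refine ⟨0, ?_, ?_⟩
    · rw [map_zero]
      exact (Finset.sum_eq_zero fun j _ => rfl).symm
    · have h4 : ∑ j : f.support, (0 : f.support → ℤ) j • zv (j : ι →₀ ℕ) = 0 :=
        Finset.sum_eq_zero fun j _ => zero_smul ℤ _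
      rw [h4, sub_zero, map_zero]
      exact Submodule.zero_mem _
  | add g g' _ _ h h' =>
    obtain ⟨c, h1, h2⟩ := h
    obtain ⟨c', h1', h2'⟩ := h'
    refine ⟨c + c', ?_, ?_⟩
    · rw [map_add, h1, h1', ← Finset.sum_add_distrib]
      rfl
    · have h3 : ∑ j : f.support, (c + c') j • zv (j : ι →₀ ℕ) =
          ∑ j : f.support, c j • zv (j : ι →₀ ℕ) + ∑ j : f.support, c' j • zv (j : ι →₀ ℕ) := by
        rw [← Finset.sum_add_distrib]
        exact Finset.sum_congr rfl fun j _ => add_smul _ _ _
      rw [h3, map_add, add_sub_add_comm]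
      exact Submodule.add_mem _ h2 h2'
  | smul n g _ h =>
    obtain ⟨c, h1, h2⟩ := h
    refine ⟨fun j => n * c j, ?_, ?_⟩
    · rw [map_smul, h1, smul_eq_mul, Finset.mul_sum]
    · have h3 : ∑ j : f.support, (n * c j) • zv (j : ι →₀ ℕ) =
          n • ∑ j : f.support, c j • zv (j : ι →₀ ℕ) := by
        rw [Finset.smul_sum]
        exact Finset.sum_congr rfl fun j _ => mul_smul _ _ _
      rw [h3, map_smul, ← smul_sub]
      exact Submodule.smul_mem _ _ h2

/-- sums over the exponents of a renamed polynomial -/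
lemma sum_rl {M : Type} [AddCommMonoid M] (H : ρ → MvPolynomial ι k) (i : ρ)
    (F : ((ι ⊕ Unit) →₀ ℕ) → M) :
    ∑ m ∈ (rl H Unit i).support, F m = ∑ a ∈ (H i).support, F (a.mapDomain Sum.inl) := by
  classical
  rw [rl, support_rename_of_injective Sum.inl_injective, Finset.sum_image]
  exact fun a _ b _ h => Finsupp.mapDomain_injective Sum.inl_injective h

/-- the other independent equations -/
lemma ind_rep {r : ℕ} (G : κ → MvPolynomial ι k) (H : Fin (r + 1) → MvPolynomial ι k)
    (hI : IndS G H) : IndS (rep G (H 0)) (rl (fun i : Fin r => H i.succ) Unit) := by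
  intro n hn hn1
  obtain ⟨c, hc, hc1⟩ := dif_rep G (H 0) _ hn1
  have hr : resr (∑ i : Fin r, ∑ m ∈ (rl (fun i : Fin r => H i.succ) Unit i).support,
      n i m • zv m) = 0 := by
    rw [map_sum]
    refine Finset.sum_eq_zero fun i _ => ?_
    rw [map_sum, sum_rl]
    refine Finset.sum_eq_zero fun a _ => ?_
    rw [map_smul]
    change n i _ • zv (a.mapDomain Sum.inl) (Sum.inr ()) = 0
    rw [zv_map_inr, smul_zero]
  have hl : resl (∑ i : Fin r, ∑ m ∈ (rl (fun i : Fin r => H i.succ) Unit i).support,
      n i m • zv m) =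
        ∑ i : Fin r, ∑ a ∈ (H i.succ).support, n i (a.mapDomain Sum.inl) • zv a := by
    rw [map_sum]
    refine Finset.sum_congr rfl fun i _ => ?_
    rw [map_sum, sum_rl]
    refine Finset.sum_congr rfl fun a _ => ?_
    rw [map_smul]
    congr 1
    funext s
    exact zv_map_inl a s
  rw [hr] at hc
  rw [hl] at hc1
  have h1 := hI (Fin.cases (fun m => -onS (H 0) c m) fun i a => n i (a.mapDomain Sum.inl)) (by
    intro i
    induction i using Fin.cases with
    | zero =>
      change ∑ m ∈ (H 0).support, -onS (H 0) c m = 0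
      rw [Finset.sum_neg_distrib, sum_onS, ← hc, neg_zero]
    | succ i =>
      change ∑ a ∈ (H i.succ).support, n i (a.mapDomain Sum.inl) = 0
      rw [← hn i, sum_rl]) (by
    rw [Fin.sum_univ_succ]
    change ∑ m ∈ (H 0).support, (-onS (H 0) c m) • zv m +
      ∑ i : Fin r, ∑ a ∈ (H i.succ).support, n i (a.mapDomain Sum.inl) • zv a ∈ _
    have h2 : ∑ m ∈ (H 0).support, (-onS (H 0) c m) • zv m =
        -∑ j, c j • zv (j : ι →₀ ℕ) := by
      rw [← sum_onS_smul, ← Finset.sum_neg_distrib]
      exact Finset.sum_congr rfl fun m _ => neg_smul _ _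
    rw [h2, neg_add_eq_sub]
    exact hc1)
  intro i m hm
  obtain ⟨a, ha, rfl⟩ := supp_rl _ i m hm
  exact h1 i.succ a ha

end

section

variable {k : Type} [Field k] {P : Sch k → Prop} {N : ℕ}

/-- **Systems in tori.** -/
theorem fam_T (hP : BndT P) (hp : Plane P) (hN : PosN True P N) (r : ℕ) :
    ∀ {ι κ : Type} [Fintype ι] [Fintype κ] (G : κ → MvPolynomial ι k)
      (H : Fin r → MvPolynomial ι k), IndS G H → excess G ≤ N + 1 →
        P (aff k (Tor (Sum.elim G H))) := by
  induction r with
  | zero =>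
    intro ι κ _ _ G H _ he
    refine iso_alg hP.toUni (pcSame (fun i => pc_rel (Sum.elim G H) _ (Sum.inl i)) (pc_unit _ _)
      ?_ (pc_unit _ _)) (exc_T hP hp hN G he)
    rintro (i | i)
    · exact pc_rel G _ i
    · exact i.elim0
  | succ r ih =>
    intro ι κ _ _ G H hI he
    have h1 := ih (rep G (H 0)) (rl (fun i : Fin r => H i.succ) Unit) (ind_rep G H hI)
      (by rw [excess_rep]; exact he)
    have h2 : P (aff k (Tor (rep (Sum.elim G fun i : Fin r => H i.succ) (H 0)))) := by
      refine iso_alg hP.toUni (pcSame ?_ (pc_unit _ _) ?_ (pc_unit _ _)) h1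
      · rintro ((i | j) | i)
        · exact pc_rel (rep (Sum.elim G fun i : Fin r => H i.succ) (H 0)) _
            (Sum.inl (Sum.inl i))
        · exact pc_rel (rep (Sum.elim G fun i : Fin r => H i.succ) (H 0)) _ (Sum.inr j)
        · exact pc_rel (rep (Sum.elim G fun i : Fin r => H i.succ) (H 0)) _
            (Sum.inl (Sum.inr i))
      · rintro ((i | i) | j)
        · exact pc_rel (Sum.elim (rep G (H 0)) (rl (fun i : Fin r => H i.succ) Unit)) _
            (Sum.inl (Sum.inl i))
        · exact pc_rel (Sum.elim (rep G (H 0)) (rl (fun i : Fin r => H i.succ) Unit)) _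
            (Sum.inr i)
        · exact pc_rel (Sum.elim (rep G (H 0)) (rl (fun i : Fin r => H i.succ) Unit)) _
            (Sum.inl (Sum.inr j))
    have h3 := red_P' (Sum.elim G fun i : Fin r => H i.succ) (H 0) hP hp (ind_first G H hI) h2
    refine iso_alg hP.toUni (pcSame ?_ (pc_unit _ _) ?_ (pc_unit _ _)) h3
    · rintro (_ | i | i)
      · exact pc_rel (Sum.elim G H) _ (Sum.inr 0)
      · exact pc_rel (Sum.elim G H) _ (Sum.inl i)
      · exact pc_rel (Sum.elim G H) _ (Sum.inr i.succ)
    · rintro (i | i)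
      · exact pc_rel (adj (Sum.elim G fun i : Fin r => H i.succ) (H 0)) _ (some (Sum.inl i))
      · induction i using Fin.cases with
        | zero => exact pc_rel (adj (Sum.elim G fun i : Fin r => H i.succ) (H 0)) _ none
        | succ i =>
          exact pc_rel (adj (Sum.elim G fun i : Fin r => H i.succ) (H 0)) _ (some (Sum.inr i))

end

end Pool.Agent.U672.TC
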