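import Mathlib

/-!
# Linear forms on lattices
-/

set_option autoImplicit false

namespace Pool.Agent.U672.TC

lemma common_den {I : Type} [Fintype I] (a : I → ℚ) :
    ∃ N : ℕ, N ≠ 0 ∧ ∃ z : I → ℤ, ∀ i, (z i : ℚ) = N * a i := by
  classical
  refine ⟨∏ i, (a i).den, Finset.prod_ne_zero_iff.mpr fun i _ => (a i).den_ne_zero,
    fun i => (∏ j ∈ Finset.univ.erase i, ((a j).den : ℤ)) * (a i).num, fun i => ?_⟩
  rw [← Finset.mul_prod_erase _ _ (Finset.mem_univ i)]
  push_cast
  have h : ((a i).num : ℚ) = a i * (a i).den := (Rat.mul_den_eq_num (a i)).symm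
  rw [h]
  ring

section

variable {σ τ : Type}

/-- rational vectors -/
def qv (g : σ → ℤ) : σ → ℚ := fun s => g s

lemma qv_inj {g h : σ → ℤ} (e : qv g = qv h) : g = h := by
  funext s
  have := congrFun e s
  exact Int.cast_injective this

lemma qv_add (g h : σ → ℤ) : qv (g + h) = qv g + qv h := by
  funext s
  exact Int.cast_add _ _

lemma qv_zero : qv (0 : σ → ℤ) = 0 := by
  funext s
  exact Int.cast_zero

lemma qv_smul (n : ℤ) (g : σ → ℤ) : qv (n • g) = (n : ℚ) • qv g := by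
  funext s
  change ((n • g) s : ℚ) = (n : ℚ) * g s
  rw [Pi.smul_apply, smul_eq_mul]
  push_cast
  rfl

lemma qv_sum {I : Type} (t : Finset I) (g : I → σ → ℤ) :
    qv (∑ i ∈ t, g i) = ∑ i ∈ t, qv (g i) := by
  classical
  induction t using Finset.induction_on with
  | empty => rw [Finset.sum_empty, Finset.sum_empty, qv_zero]
  | insert a t ha ih => rw [Finset.sum_insert ha, Finset.sum_insert ha, qv_add, ih]

lemma span_den (W : Set (σ → ℤ)) (v : σ → ℚ) (hv : v ∈ Submodule.span ℚ (qv '' W)) :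
    ∃ D : ℤ, D ≠ 0 ∧ ∃ g ∈ Submodule.span ℤ W, (D : ℚ) • v = qv g := by
  induction hv using Submodule.span_induction with
  | mem v hv =>
    obtain ⟨w, hw, rfl⟩ := hv
    exact ⟨1, one_ne_zero, w, Submodule.subset_span hw, by rw [Int.cast_one, one_smul]⟩
  | zero => exact ⟨1, one_ne_zero, 0, Submodule.zero_mem _, by rw [smul_zero, qv_zero]⟩
  | add v v' _ _ h h' =>
    obtain ⟨D, hD, g, hg, e⟩ := h
    obtain ⟨D', hD', g', hg', e'⟩ := h'
    refine ⟨D * D', mul_ne_zero hD hD', D' • g + D • g', Submodule.add_mem _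
      (Submodule.smul_mem _ _ hg) (Submodule.smul_mem _ _ hg'), ?_⟩
    rw [qv_add, qv_smul, qv_smul, ← e, ← e', smul_add, smul_smul, smul_smul]
    push_cast
    rw [mul_comm (D : ℚ)]
  | smul q v _ h =>
    obtain ⟨D, hD, g, hg, e⟩ := h
    refine ⟨D * q.den, mul_ne_zero hD (by exact_mod_cast q.den_ne_zero), q.num • g,
      Submodule.smul_mem _ _ hg, ?_⟩
    rw [qv_smul, ← e, smul_smul, smul_smul]
    congr 1
    push_cast
    have h : (q.num : ℚ) = q * q.den := (Rat.mul_den_eq_num q).symm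
    rw [h]
    ring

/-- **Dual forms**: if the vectors `m j` are independent modulo the lattice generated by `W`, then there
is a linear map with `m j ↦ N e_j` and `W ↦ 0`. -/
lemma exists_forms [Fintype σ] [Fintype τ] [DecidableEq σ] [DecidableEq τ] (m : τ → σ → ℤ)
    (W : Set (σ → ℤ))
    (h : ∀ n : τ → ℤ, ∑ j, n j • m j ∈ Submodule.span ℤ W → n = 0) :
    ∃ (N : ℕ) (L : (σ → ℤ) →ₗ[ℤ] (τ → ℤ)), N ≠ 0 ∧ (∀ j, L (m j) = Pi.single j (N : ℤ)) ∧
      ∀ w ∈ W, L w = 0 := by
  let WQ := Submodule.span ℚ (qv '' W)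
  let ψ : (τ → ℚ) →ₗ[ℚ] ((σ → ℚ) ⧸ WQ) := WQ.mkQ.comp (Fintype.linearCombination ℚ fun j => qv (m j))
  have hψ : Function.Injective ψ := by
    rw [injective_iff_map_eq_zero]
    intro n hn
    have h1 : ∑ j, n j • qv (m j) ∈ WQ := (Submodule.Quotient.mk_eq_zero _).mp hn
    obtain ⟨D1, hD1, z, hz⟩ := common_den n
    obtain ⟨D2, hD2, g, hg, e⟩ := span_den W _ h1
    have h2 : D2 • ∑ j, z j • m j = (D1 : ℤ) • g := by
      apply qv_inj
      rw [qv_smul, qv_smul, qv_sum, ← e, smul_smul, Finset.smul_sum, Finset.smul_sum]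
      refine Finset.sum_congr rfl fun j _ => ?_
      rw [qv_smul, hz, smul_smul, smul_smul]
      congr 1
      push_cast
      ring
    have h3 : (fun j => D2 * z j) = 0 := by
      apply h
      have h4 : ∑ j, (D2 * z j) • m j = D2 • ∑ j, z j • m j := by
        rw [Finset.smul_sum]
        exact Finset.sum_congr rfl fun j _ => mul_smul _ _ _
      rw [h4, h2]
      exact Submodule.smul_mem _ _ hg
    funext j
    have h4 : D2 * z j = 0 := congrFun h3 j
    have h5 : z j = 0 := (mul_eq_zero.mp h4).resolve_left hD2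
    have h6 := hz j
    rw [h5, Int.cast_zero] at h6
    exact (mul_eq_zero.mp h6.symm).resolve_left (by exact_mod_cast hD1)
  obtain ⟨φ, hφ⟩ := LinearMap.exists_leftInverse_of_injective ψ (LinearMap.ker_eq_bot.mpr hψ)
  let Φ : (σ → ℚ) →ₗ[ℚ] (τ → ℚ) := φ.comp WQ.mkQ
  have hΦm : ∀ j, Φ (qv (m j)) = Pi.single j 1 := by
    intro j
    have h1 : ψ (Pi.single j 1) = WQ.mkQ (qv (m j)) := by
      change WQ.mkQ (Fintype.linearCombination ℚ (fun j => qv (m j)) (Pi.single j 1)) = _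
      rw [Fintype.linearCombination_apply_single, one_smul]
    have h2 := congrArg (fun f : (τ → ℚ) →ₗ[ℚ] (τ → ℚ) => f (Pi.single j 1)) hφ
    change φ (ψ (Pi.single j 1)) = Pi.single j 1 at h2
    rw [h1] at h2
    exact h2
  have hΦw : ∀ w ∈ W, Φ (qv w) = 0 := by
    intro w hw
    have h1 : WQ.mkQ (qv w) = 0 :=
      (Submodule.Quotient.mk_eq_zero _).mpr (Submodule.subset_span ⟨w, hw, rfl⟩)
    change φ (WQ.mkQ (qv w)) = 0
    rw [h1, map_zero]
  obtain ⟨N, hN, z, hz⟩ := common_den fun p : σ × τ => Φ (Pi.single p.1 1) p.2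
  let L : (σ → ℤ) →ₗ[ℤ] (τ → ℤ) := Fintype.linearCombination ℤ fun s => fun j => z (s, j)
  have hL : ∀ g, qv (L g) = (N : ℚ) • Φ (qv g) := by
    intro g
    have h1 : qv g = ∑ s, (g s : ℚ) • (Pi.single s 1 : σ → ℚ) := by
      conv_lhs => rw [← Finset.univ_sum_single (qv g)]
      refine Finset.sum_congr rfl fun s _ => ?_
      rw [← Pi.single_smul, smul_eq_mul, mul_one]
      rfl
    have h2 : L g = ∑ s, g s • fun j => z (s, j) := Fintype.linearCombination_apply _ _ _
    rw [h2, qv_sum, h1, map_sum, Finset.smul_sum]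
    refine Finset.sum_congr rfl fun s _ => ?_
    rw [qv_smul, map_smul]
    funext j
    change (g s : ℚ) * (z (s, j) : ℚ) = (N : ℚ) * ((g s : ℚ) * Φ (Pi.single s 1) j)
    rw [hz]
    ring
  refine ⟨N, L, hN, fun j => ?_, fun w hw => ?_⟩
  · apply qv_inj
    rw [hL, hΦm]
    funext j'
    change (N : ℚ) * (Pi.single j (1 : ℚ) : τ → ℚ) j' = ((Pi.single j (N : ℤ) : τ → ℤ) j' : ℚ)
    by_cases h : j' = j
    · subst h
      rw [Pi.single_eq_same, Pi.single_eq_same, mul_one]
      push_cast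
      rfl
    · rw [Pi.single_eq_of_ne h, Pi.single_eq_of_ne h, mul_zero, Int.cast_zero]
  · apply qv_inj
    rw [hL, hΦw w hw, smul_zero, qv_zero]

end

end Pool.Agent.U672.TC
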