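import Pool.Agent.U672.TC.Cov
import Pool.Agent.U672.TC.Lat

/-!
# Independent equations
-/

set_option autoImplicit false

open CategoryTheory AlgebraicGeometry MvPolynomial Pool.Agent.Y116.UV Pool.Agent.Z125.UN
  Pool.Agent.U738.BN Pool.Agent.U672.ST

namespace Pool.Agent.U672.TC

section

variable {k : Type} [Field k] {P : Sch k → Prop} {ι κ : Type}

/-- the differences of the exponents of the polynomials of a system -/
def dif (G : κ → MvPolynomial ι k) : Set (ι → ℤ) :=
  {g | ∃ i, ∃ a ∈ (G i).support, ∃ b ∈ (G i).support, g = zv a - zv b}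

/-- the exponents of `f` are affinely independent modulo the differences of the exponents of `G` -/
def Ind (G : κ → MvPolynomial ι k) (f : MvPolynomial ι k) : Prop :=
  ∀ n : f.support → ℤ, ∑ j, n j = 0 → ∑ j, n j • zv (j : ι →₀ ℕ) ∈ Submodule.span ℤ (dif G) → n = 0

/-- homogenized exponents -/
noncomputable def he (a : ι →₀ ℕ) : (ι ⊕ Unit) →₀ ℕ :=
  a.mapDomain Sum.inl + Finsupp.single (Sum.inr ()) 1

lemma zv_map_inl (a : ι →₀ ℕ) (s : ι) : zv (a.mapDomain (Sum.inl : ι → ι ⊕ Unit)) (Sum.inl s) =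
    zv a s := by
  rw [zv, zv, Finsupp.mapDomain_apply Sum.inl_injective]

lemma zv_map_inr (a : ι →₀ ℕ) (s : Unit) :
    zv (a.mapDomain (Sum.inl : ι → ι ⊕ Unit)) (Sum.inr s) = 0 := by
  rw [zv, Finsupp.mapDomain_of_notMem_range, Nat.cast_zero]
  rintro ⟨x, hx⟩
  exact Sum.inl_ne_inr hx

lemma zv_he_inl (a : ι →₀ ℕ) (s : ι) : zv (he a) (Sum.inl s) = zv a s := by
  rw [he, zv_add, Pi.add_apply, zv_map_inl]
  have h : zv (Finsupp.single (Sum.inr ()) 1 : (ι ⊕ Unit) →₀ ℕ) (Sum.inl s) = 0 := by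
    rw [zv, Finsupp.single_eq_of_ne Sum.inl_ne_inr, Nat.cast_zero]
  rw [h, add_zero]

lemma zv_he_inr (a : ι →₀ ℕ) (s : Unit) : zv (he a) (Sum.inr s) = 1 := by
  rw [he, zv_add, Pi.add_apply, zv_map_inr]
  have h : zv (Finsupp.single (Sum.inr ()) 1 : (ι ⊕ Unit) →₀ ℕ) (Sum.inr s) = 1 := by
    rw [zv, Finsupp.single_eq_same, Nat.cast_one]
  rw [h, zero_add]

lemma mono_he (a : ι →₀ ℕ) (c : k) :
    monomial (he a) c = rename Sum.inl (monomial a c) * (xs : MvPolynomial (ι ⊕ Unit) k) := by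
  rw [rename_monomial, xs, X, monomial_mul, mul_one, he]

lemma supp_rl (G : κ → MvPolynomial ι k) (i : κ) (b : (ι ⊕ Unit) →₀ ℕ)
    (hb : b ∈ (rl G Unit i).support) : ∃ a ∈ (G i).support, b = a.mapDomain Sum.inl := by
  classical
  rw [rl, support_rename_of_injective Sum.inl_injective] at hb
  obtain ⟨a, ha, rfl⟩ := Finset.mem_image.mp hb
  exact ⟨a, ha, rfl⟩

/-- restriction to the first coordinates -/
def resl : ((ι ⊕ Unit) → ℤ) →ₗ[ℤ] (ι → ℤ) := LinearMap.funLeft ℤ ℤ Sum.inl

/-- the last coordinate -/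
def resr : ((ι ⊕ Unit) → ℤ) →ₗ[ℤ] ℤ := LinearMap.proj (Sum.inr ())

lemma dif_rl (G : κ → MvPolynomial ι k) (g : (ι ⊕ Unit) → ℤ)
    (hg : g ∈ Submodule.span ℤ (dif (rl G Unit))) :
    resr g = 0 ∧ resl g ∈ Submodule.span ℤ (dif G) := by
  induction hg using Submodule.span_induction with
  | mem g hg =>
    obtain ⟨i, a, ha, b, hb, rfl⟩ := hg
    obtain ⟨a, ha', rfl⟩ := supp_rl G i a ha
    obtain ⟨b, hb', rfl⟩ := supp_rl G i b hb
    constructor
    · change zv _ (Sum.inr ()) - zv _ (Sum.inr ()) = 0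
      rw [zv_map_inr, zv_map_inr, sub_zero]
    · apply Submodule.subset_span
      refine ⟨i, a, ha', b, hb', ?_⟩
      funext s
      change zv _ (Sum.inl s) - zv _ (Sum.inl s) = zv a s - zv b s
      rw [zv_map_inl, zv_map_inl]
  | zero => exact ⟨map_zero _, by rw [map_zero]; exact Submodule.zero_mem _⟩
  | add g g' _ _ h h' =>
    exact ⟨by rw [map_add, h.1, h'.1, add_zero], by rw [map_add]; exact Submodule.add_mem _ h.2 h'.2⟩
  | smul n g _ h =>
    exact ⟨by rw [map_smul, h.1, smul_zero], by rw [map_smul]; exact Submodule.smul_mem _ _ h.2⟩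

/-- the linear form with the coefficients of `f` -/
noncomputable def linf (f : MvPolynomial ι k) : MvPolynomial f.support k :=
  ∑ j : f.support, C (coeff (j : ι →₀ ℕ) f) * X j

lemma subm_linf (f : MvPolynomial ι k) :
    subm (linf f) (fun j : f.support => he (j : ι →₀ ℕ)) = rename Sum.inl f * xs := by
  have h1 : ∀ j : f.support, aeval (fun j : f.support => (monomial (he (j : ι →₀ ℕ)) (1 : k)))
      (C (coeff (j : ι →₀ ℕ) f) * X j) =
        rename Sum.inl (monomial (j : ι →₀ ℕ) (coeff (j : ι →₀ ℕ) f)) * xs := by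
    intro j
    rw [map_mul, aeval_X, ← mono_he, aeval_C, algebraMap_eq, C_mul_monomial, mul_one]
  have h2 : f = ∑ j : f.support, monomial (j : ι →₀ ℕ) (coeff (j : ι →₀ ℕ) f) := by
    have h3 := support_sum_monomial_coeff f
    rw [← Finset.sum_coe_sort] at h3
    exact h3.symm
  have h3 : (rename Sum.inl f : MvPolynomial (ι ⊕ Unit) k) * xs = ∑ j : f.support,
      rename Sum.inl (monomial (j : ι →₀ ℕ) (coeff (j : ι →₀ ℕ) f)) * xs := by
    have h4 := congrArg (fun p => (rename Sum.inl p : MvPolynomial (ι ⊕ Unit) k) * xs) h2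
    refine h4.trans ?_
    rw [map_sum, Finset.sum_mul]
  rw [h3, subm, linf, map_sum]
  exact Finset.sum_congr rfl fun j _ => h1 j

lemma tw_sum [Fintype ι] : tw k (ι ⊕ Unit) = rename Sum.inl (tw k ι) * xs := by
  have h1 : (∏ u : Unit, (X (Sum.inr u) : MvPolynomial (ι ⊕ Unit) k)) = xs :=
    Fintype.prod_unique _
  have h2 : (∏ s : ι, (X (Sum.inl s) : MvPolynomial (ι ⊕ Unit) k)) = rename Sum.inl (tw k ι) := by
    rw [tw, map_prod]
    exact Finset.prod_congr rfl fun s _ => (rename_X _ _).symm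
  rw [← h1, ← h2]
  exact Fintype.prod_sum_type _

/-- the system in which the equation `f = 0` is replaced by `t x ^ a = 1` for the exponents `a` of `f` -/
noncomputable def rep (G : κ → MvPolynomial ι k) (f : MvPolynomial ι k) :
    κ ⊕ f.support → MvPolynomial (ι ⊕ Unit) k :=
  bG (rl G Unit) fun j : f.support => he (j : ι →₀ ℕ)

variable [Fintype ι] (G : κ → MvPolynomial ι k) (f : MvPolynomial ι k)

/-- **Independent equations.** -/
theorem red_P (hP : BndT P) (hf : Ind G f)
    (h1 : ∀ N : ℕ, N ≠ 0 → P (aff k (Tor (fun _ : Unit => powf (linf f) N))))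
    (h2 : P (aff k (Tor (rep G f)))) : P (aff k (Tor (adj G f))) := by
  classical
  obtain ⟨N, L, hN, hm, hW⟩ := exists_forms (fun j : f.support => zv (he (j : ι →₀ ℕ)))
    (dif (rl G Unit)) (by
      intro n hn
      obtain ⟨h3, h4⟩ := dif_rl G _ hn
      apply hf n
      · rw [map_sum] at h3
        rw [← h3]
        refine Finset.sum_congr rfl fun j _ => ?_
        rw [map_smul]
        change n j = n j * zv (he (j : ι →₀ ℕ)) (Sum.inr ())
        rw [zv_he_inr, mul_one]
      · have h5 : ∑ j : f.support, n j • zv (j : ι →₀ ℕ) =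
            resl (∑ j : f.support, n j • zv (he (j : ι →₀ ℕ))) := by
          rw [map_sum]
          refine Finset.sum_congr rfl fun j _ => ?_
          rw [map_smul]
          congr 1
          funext s
          exact (zv_he_inl _ s).symm
        rw [h5]
        exact h4)
  have h3 := cp_P (rl G Unit) (linf f) (fun j : f.support => he (j : ι →₀ ℕ)) N hN L hm (by
    intro i a ha b hb
    have h := hW (zv a - zv b) ⟨i, a, ha, b, hb, rfl⟩
    rwa [map_sub, sub_eq_zero] at h) hP (h1 N hN) h2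
  apply pc_torus _ _ hP.toBnd
  rw [subm_linf] at h3
  have hu : IsUnit (pc (adj (rl G Unit) (rename Sum.inl f * xs)) (tw k (ι ⊕ Unit)) xs) := by
    rw [tw_sum]
    exact pc_unit_right _ _ _
  refine iso_alg hP.toUni (pcSame ?_ ?_ ?_ ?_) h3
  · rintro (_ | i)
    · change pc _ _ (rename Sum.inl f * xs) = 0
      rw [map_mul]
      have h4 := pc_rel (rl (adj G f) Unit) (rename Sum.inl (tw k ι) * xs) none
      change pc _ _ (rename Sum.inl f) = 0 at h4
      rw [h4, zero_mul]
    · exact pc_rel (rl (adj G f) Unit) (rename Sum.inl (tw k ι) * xs) (some i)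
  · rw [tw_sum]
    exact pc_unit _ _
  · rintro (_ | i)
    · have h4 := pc_rel (adj (rl G Unit) (rename Sum.inl f * xs)) (tw k (ι ⊕ Unit)) none
      change pc _ _ (rename Sum.inl f * xs) = 0 at h4
      rw [map_mul] at h4
      exact (hu.mul_left_eq_zero).mp h4
    · exact pc_rel (adj (rl G Unit) (rename Sum.inl f * xs)) (tw k (ι ⊕ Unit)) (some i)
  · rw [← tw_sum]
    exact pc_unit _ _

end

end Pool.Agent.U672.TC
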