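import Pool.Agent.U672.TC.Str
import Pool.Agent.U672.TC.Red

/-!
# Diagonal equations in tori
-/

set_option autoImplicit false

open CategoryTheory AlgebraicGeometry MvPolynomial Pool.Agent.Y116.UV Pool.Agent.Z125.UN
  Pool.Agent.U738.BN Pool.Agent.U672.ST

namespace Pool.Agent.U672.TC

variable {k : Type} [Field k] {P : Sch k → Prop}

/-- diagonal forms -/
noncomputable def dg {τ : Type} [Fintype τ] (c : τ → k) (N : ℕ) : MvPolynomial τ k :=
  ∑ j, C (c j) * X j ^ N

lemma powf_linf {ι : Type} (f : MvPolynomial ι k) (N : ℕ) :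
    powf (linf f) N = dg (fun j : f.support => coeff (j : ι →₀ ℕ) f) N := by
  rw [powf, linf, map_sum, dg]
  refine Finset.sum_congr rfl fun j _ => ?_
  rw [map_mul, aeval_X, aeval_C]
  rfl

lemma dg_good (hP : BndT P) (h2 : Plane P) {τ : Type} [Fintype τ] (c : τ → k) {N : ℕ}
    (hN : N ≠ 0) : Good P (dg c N) := by
  let E : Fin (Fintype.card τ) ≃ τ := (Fintype.equivFin τ).symm
  let E' : (Σ _ : Fin (Fintype.card τ), Unit) ≃ τ := (Equiv.sigmaUnique _ _).trans E
  obtain ⟨-, h⟩ := good_tot hP h2 (Fintype.card τ) (fun _ => Unit) (fun j => una (c (E j)) N)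
    (fun j => ⟨_, N, by exact_mod_cast hN, wh_una _ _⟩)
    (fun j => small_good hP h2 (by rw [Fintype.card_unit]; omega) _)
  have h3 := good_rename hP E' h
  have h4 : rename E' (tot fun j : Fin (Fintype.card τ) => una (c (E j)) N) = dg c N := by
    rw [tot, map_sum, dg]
    refine Fintype.sum_equiv E _ _ fun j => ?_
    rw [rename_rename, una, map_mul, map_pow, rename_C, rename_X]
    rfl
  rw [h4] at h3
  exact h3

lemma rs_dg {τ : Type} [Fintype τ] [DecidableEq τ] (c : τ → k) {N : ℕ} (hN : N ≠ 0)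
    (Z : Finset τ) : rs Z (dg c N) = dg (fun j : Cp Z => c j.1) N := by
  rw [dg, map_sum, ← Fintype.sum_subtype_add_sum_subtype (fun j => j ∉ Z), dg]
  have h : ∑ i : {x // ¬ (x ∉ Z)}, rs Z (C (c i.1) * X i.1 ^ N) = 0 := by
    refine Finset.sum_eq_zero fun i _ => ?_
    rw [map_mul, map_pow, rs_X0 Z i.1 (not_not.mp i.2), zero_pow hN, mul_zero]
  rw [h, add_zero]
  refine Finset.sum_congr rfl fun j _ => ?_
  rw [map_mul, map_pow, rs_X Z j]
  congr 1
  exact killCompl_C _ _

lemma lev_zero {σ : Type} (f : MvPolynomial σ k) : lev f 0 = fun _ : Unit => f := by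
  funext i
  rw [lev, C_0, sub_zero]

/-- **Diagonal equations in tori.** -/
theorem ferm_P (hP : BndT P) (h2 : Plane P) {τ : Type} [Fintype τ] (c : τ → k) {N : ℕ}
    (hN : N ≠ 0) : P (aff k (Tor (fun _ : Unit => dg c N))) := by
  classical
  refine open_P hP.toBnd _ fun Z => ?_
  have h := dg_good hP h2 (fun j : Cp Z => c j.1) hN 0
  rw [lev_zero, ← rs_dg c hN Z] at h
  have h3 : P (aff k (Pc (fun _ : Unit => rs Z (dg c N)) (rs Z 1))) := by
    rw [map_one]
    exact h
  exact iso_alg hP.toUni (leafE Z (fun _ : Unit => dg c N) 1).symm h3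

/-- **Independent equations.** -/
theorem red_P' {ι κ : Type} [Fintype ι] (G : κ → MvPolynomial ι k) (f : MvPolynomial ι k)
    (hP : BndT P) (hp : Plane P) (hf : Ind G f) (h2 : P (aff k (Tor (rep G f)))) :
    P (aff k (Tor (adj G f))) := by
  refine red_P G f hP hf (fun N hN => ?_) h2
  rw [powf_linf]
  exact ferm_P hP hp _ hN

end Pool.Agent.U672.TC
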