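import Pool.Agent.U672.TC.Red
import Pool.Agent.Z125.UN.Dim2

/-!
# Parameters for the ratios of the monomials
-/

set_option autoImplicit false

open CategoryTheory AlgebraicGeometry MvPolynomial Pool.Agent.Y116.UV Pool.Agent.Z125.UN
  Pool.Agent.U738.BN Pool.Agent.U672.ST

namespace Pool.Agent.U672.TC

section

variable {k : Type} [Field k] {ι κ : Type} (G : κ → MvPolynomial ι k) (m0 m1 : κ → (ι →₀ ℕ))

open Classical in
/-- the exponents other than the first two -/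
noncomputable def Rs (i : κ) : Finset (ι →₀ ℕ) := ((G i).support.erase (m0 i)).erase (m1 i)

/-- the parameters -/
abbrev Pr : Type := (i : κ) × {m // m ∈ Rs G m0 m1 i}

/-- `m0 i` and `m1 i` are two exponents of `G i` -/
def Ch : Prop := ∀ i, G i ≠ 0 → m0 i ∈ (G i).support ∧ m1 i ∈ (G i).support ∧ m0 i ≠ m1 i

/-- the linear form -/
noncomputable def lf (i : κ) : MvPolynomial (Pr G m0 m1) k :=
  C (coeff (m0 i) (G i)) + ∑ m' : {m // m ∈ Rs G m0 m1 i}, C (coeff m'.1 (G i)) * X ⟨i, m'⟩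

open Classical in
/-- the ratios of the monomials as functions of the parameters -/
noncomputable def qq (i : κ) (m : ι →₀ ℕ) : MvPolynomial (Pr G m0 m1) k :=
  if h : m ∈ Rs G m0 m1 i then X ⟨i, m, h⟩
  else if m = m1 i then C (-(coeff (m1 i) (G i))⁻¹) * lf G m0 m1 i else 1

lemma mem_Rs {i : κ} {m : ι →₀ ℕ} : m ∈ Rs G m0 m1 i ↔ m ≠ m1 i ∧ m ≠ m0 i ∧ m ∈ (G i).support := by
  classical
  rw [Rs, Finset.mem_erase, Finset.mem_erase]

lemma qq_one (hc : Ch G m0 m1) (i : κ) (hi : G i ≠ 0) : qq G m0 m1 i (m0 i) = 1 := by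
  rw [qq, dif_neg, if_neg]
  · exact (hc i hi).2.2
  · rw [mem_Rs]
    exact fun h => h.2.1 rfl

lemma qq_lf (i : κ) : qq G m0 m1 i (m1 i) = C (-(coeff (m1 i) (G i))⁻¹) * lf G m0 m1 i := by
  rw [qq, dif_neg, if_pos rfl]
  rw [mem_Rs]
  exact fun h => h.1 rfl

lemma qq_X (i : κ) (m : ι →₀ ℕ) (h : m ∈ Rs G m0 m1 i) : qq G m0 m1 i m = X ⟨i, m, h⟩ := by
  rw [qq, dif_pos h]

/-- sums over the exponents -/
lemma sum_supp (hc : Ch G m0 m1) (i : κ) (hi : G i ≠ 0) {M : Type} [AddCommMonoid M]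
    (F : (ι →₀ ℕ) → M) : ∑ m ∈ (G i).support, F m =
      F (m0 i) + (F (m1 i) + ∑ m' : {m // m ∈ Rs G m0 m1 i}, F m'.1) := by
  classical
  obtain ⟨h0, h1, h2⟩ := hc i hi
  have h3 : ∑ m' : {m // m ∈ Rs G m0 m1 i}, F m'.1 = ∑ m ∈ Rs G m0 m1 i, F m :=
    Finset.sum_coe_sort _ _
  rw [h3, Rs, ← Finset.add_sum_erase _ _ h0, ← Finset.add_sum_erase _ F
    (Finset.mem_erase.mpr ⟨h2.symm, h1⟩)]

variable [Fintype ι]

/-- the ratios -/
noncomputable def rat (i : κ) (m : ι →₀ ℕ) : (Tor G)ˣ := um (tx G) (zv m - zv (m0 i))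

/-- the values of the parameters -/
noncomputable def phi : MvPolynomial (Pr G m0 m1) k →ₐ[k] Tor G :=
  aeval fun p => (rat G m0 p.1 p.2.1 : Tor G)

lemma rat_sum (i : κ) : ∑ m ∈ (G i).support, algebraMap k (Tor G) (coeff m (G i)) *
    (rat G m0 i m : Tor G) = 0 := by
  have h := tor_rel G i
  rw [aeval_sum] at h
  have h2 : ∑ m ∈ (G i).support, algebraMap k (Tor G) (coeff m (G i)) * (rat G m0 i m : Tor G) =
      (∑ m ∈ (G i).support, algebraMap k (Tor G) (coeff m (G i)) * (um (tx G) (zv m) : Tor G)) *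
        (um (tx G) (-zv (m0 i)) : Tor G) := by
    rw [Finset.sum_mul]
    refine Finset.sum_congr rfl fun m _ => ?_
    rw [rat, sub_eq_add_neg, um_add, Units.val_mul, mul_assoc]
  rw [h2, h, zero_mul]

lemma phi_qq (hc : Ch G m0 m1) (i : κ) (m : ι →₀ ℕ) (hm : m ∈ (G i).support) :
    phi G m0 m1 (qq G m0 m1 i m) = rat G m0 i m := by
  have hi : G i ≠ 0 := by
    intro h
    rw [h, support_zero] at hm
    exact absurd hm (Finset.notMem_empty m)
  by_cases h : m ∈ Rs G m0 m1 i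
  · rw [qq_X G m0 m1 i m h, phi, aeval_X]
  · by_cases h1 : m = m1 i
    · subst h1
      rw [qq_lf, map_mul, lf, map_add, map_sum, phi, aeval_C, aeval_C]
      have h2 := rat_sum G m0 i
      rw [sum_supp G m0 m1 hc i hi] at h2
      have h3 : rat G m0 i (m0 i) = 1 := by
        rw [rat, sub_self, um_zero]
      rw [h3, Units.val_one, mul_one] at h2
      have h4 : ∑ m' : {m // m ∈ Rs G m0 m1 i}, (aeval fun p : Pr G m0 m1 =>
          (rat G m0 p.1 p.2.1 : Tor G)) (C (coeff m'.1 (G i)) * X ⟨i, m'⟩) =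
          ∑ m' : {m // m ∈ Rs G m0 m1 i}, algebraMap k (Tor G) (coeff m'.1 (G i)) *
            (rat G m0 i m'.1 : Tor G) := by
        refine Finset.sum_congr rfl fun m' _ => ?_
        rw [map_mul, aeval_C, aeval_X]
      rw [h4]
      have h5 : algebraMap k (Tor G) (-(coeff (m1 i) (G i))⁻¹) *
          algebraMap k (Tor G) (coeff (m1 i) (G i)) = -1 := by
        rw [← map_mul, neg_mul, inv_mul_cancel₀ (mem_support_iff.mp hm), map_neg, map_one]
      linear_combination algebraMap k (Tor G) (-(coeff (m1 i) (G i))⁻¹) * h2 -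
        (rat G m0 i (m1 i) : Tor G) * h5
    · have h2 : m = m0 i := by
        by_contra h2
        exact h ((mem_Rs G m0 m1).mpr ⟨h1, h2, hm⟩)
      subst h2
      rw [qq_one G m0 m1 hc i hi, map_one, rat, sub_self, um_zero, Units.val_one]

variable [Fintype κ]

/-- products of the ratios -/
noncomputable def pp (e : κ → (ι →₀ ℕ) → ℕ) : MvPolynomial (Pr G m0 m1) k :=
  ∏ i, ∏ m ∈ (G i).support, qq G m0 m1 i m ^ e i m

lemma phi_pp (hc : Ch G m0 m1) (e : κ → (ι →₀ ℕ) → ℕ) :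
    phi G m0 m1 (pp G m0 m1 e) =
      ((∏ i, ∏ m ∈ (G i).support, rat G m0 i m ^ e i m : (Tor G)ˣ) : Tor G) := by
  rw [pp, map_prod, Units.coe_prod]
  refine Finset.prod_congr rfl fun i _ => ?_
  rw [map_prod, Units.coe_prod]
  refine Finset.prod_congr rfl fun m hm => ?_
  rw [map_pow, phi_qq G m0 m1 hc i m hm, Units.val_pow_eq_pow_val]

omit [Fintype ι] in
lemma qq_dvd (i : κ) (m : ι →₀ ℕ) (hm : m ∈ (G i).support) :
    qq G m0 m1 i m ∣ pp G m0 m1 fun _ _ => 1 := by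
  refine dvd_trans ?_ (Finset.dvd_prod_of_mem _ (Finset.mem_univ i))
  refine dvd_trans ?_ (Finset.dvd_prod_of_mem _ hm)
  rw [pow_one]

variable {P : Sch k → Prop} {N : ℕ}

/-- **The case of small dimension.** -/
theorem par_P (hP : PosN True P N) (hc : Ch G m0 m1) (p : MvPolynomial (Pr G m0 m1) k)
    (hp : phi G m0 m1 p = 0)
    (hd : ringKrullDim (MvPolynomial (Pr G m0 m1) k ⧸ Ideal.span (Set.range fun _ : Unit => p)) ≤ N) :
    P (aff k (Tor G)) := by
  let Q := pp G m0 m1 fun _ _ => 1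
  have hQ : IsUnit (phi G m0 m1 Q) := by
    rw [phi_pp G m0 m1 hc]
    exact Units.isUnit _
  let δ : Pc (fun _ : Unit => p) Q →ₐ[k] Tor G := pcLift _ _
    (fun x => (rat G m0 x.1 x.2.1 : Tor G)) (fun _ => hp) hQ
  have hδ : ∀ r, δ (pc _ _ r) = phi G m0 m1 r := fun r => pcLift_pc _ _ _ _ _ _
  refine tor_P hP G (Pc (fun _ : Unit => p) Q) ((dim_away _).trans hd) δ ?_
  intro i m hm m' hm'
  have hu : IsUnit (pc (fun _ : Unit => p) Q (qq G m0 m1 i m')) := by
    obtain ⟨c, hc'⟩ := qq_dvd G m0 m1 i m' hm'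
    have h := pc_unit (fun _ : Unit => p) Q
    have h2 : pc (fun _ : Unit => p) Q Q = pc (fun _ : Unit => p) Q (qq G m0 m1 i m') *
        pc (fun _ : Unit => p) Q c := by
      rw [← map_mul]
      exact congrArg _ hc'
    rw [h2] at h
    exact isUnit_of_mul_isUnit_left h
  obtain ⟨v, hv⟩ := hu.exists_right_inv
  refine ⟨pc _ _ (qq G m0 m1 i m) * v, ?_⟩
  have h1 : δ v = (((rat G m0 i m')⁻¹ : (Tor G)ˣ) : Tor G) := by
    have h2 := congrArg δ hv
    rw [map_mul, map_one, hδ, phi_qq G m0 m1 hc i m' hm'] at h2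
    rw [← Units.inv_mul_cancel_left (rat G m0 i m') (δ v), h2, mul_one]
  rw [map_mul, hδ, phi_qq G m0 m1 hc i m hm, h1, ← Units.val_mul]
  congr 1
  rw [rat, rat, ← um_neg, ← um_add]
  congr 1
  abel

end

end Pool.Agent.U672.TC
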