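import Mathlib

/-!
# Splitting off a multiplicative group

Let the algebra `A` be generated by elements `x i` and let `ρ : A → A[T, 1/T]` be a homomorphism with
`ρ (x i) = x i T ^ (l i)`. If `u` is a unit of `A` with `ρ u = u T`, then `A` is isomorphic to
`(A / (u - 1))[T, 1/T]`.
-/

set_option autoImplicit false

namespace Pool.Agent.U672.TC

open LaurentPolynomial

section

variable {R A B : Type} [CommRing R] [CommRing A] [Algebra R A] [CommRing B] [Algebra R B]

/-- homomorphisms from Laurent polynomials -/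
noncomputable def ev (f : A →ₐ[R] B) (u : Bˣ) : LaurentPolynomial A →ₐ[R] B where
  toRingHom := LaurentPolynomial.eval₂ f.toRingHom u
  commutes' r := by
    change LaurentPolynomial.eval₂ f.toRingHom u (C (algebraMap R _ r)) = _
    rw [LaurentPolynomial.eval₂_C]
    exact f.commutes r

lemma ev_C (f : A →ₐ[R] B) (u : Bˣ) (a : A) : ev f u (C a) = f a :=
  LaurentPolynomial.eval₂_C _ _ a

lemma ev_T (f : A →ₐ[R] B) (u : Bˣ) (n : ℤ) : ev f u (T n) = ((u ^ n : Bˣ) : B) :=
  LaurentPolynomial.eval₂_T _ _ n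

/-- extensionality -/
lemma lau_ext {f g : LaurentPolynomial A →ₐ[R] B} (h : ∀ a, f (C a) = g (C a))
    (h1 : f (T 1) = g (T 1)) : f = g := by
  have hT : ∀ n : ℕ, f (T n) = g (T n) := by
    intro n
    have e : (T (n : ℤ) : LaurentPolynomial A) = T 1 ^ n := by rw [T_pow, mul_one]
    rw [e, map_pow, map_pow, h1]
  have hT' : ∀ n : ℕ, f (T (-n)) = g (T (-n)) := by
    intro n
    have e : (T (n : ℤ) : LaurentPolynomial A) * T (-n) = 1 := by rw [← T_add, add_neg_cancel, T_zero]
    have e1 : g (T n) * f (T (-n)) = 1 := by rw [← hT, ← map_mul, e, map_one]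
    have e2 : g (T n) * g (T (-n)) = 1 := by rw [← map_mul, e, map_one]
    calc f (T (-n)) = (g (T n) * g (T (-n))) * f (T (-n)) := by rw [e2, one_mul]
      _ = g (T (-n)) * (g (T n) * f (T (-n))) := by ring
      _ = g (T (-n)) := by rw [e1, mul_one]
  apply AlgHom.ext
  intro p
  induction p using LaurentPolynomial.induction_on' with
  | add p q hp hq => rw [map_add, map_add, hp, hq]
  | C_mul_T n a =>
    rw [map_mul, map_mul, h]
    congr 1
    obtain ⟨m, rfl | rfl⟩ := n.eq_nat_or_neg
    · exact hT m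
    · exact hT' m

/-- the map on Laurent polynomials -/
noncomputable def lmap (f : A →ₐ[R] B) : LaurentPolynomial A →ₐ[R] LaurentPolynomial B :=
  ev ((IsScalarTower.toAlgHom R B (LaurentPolynomial B)).comp f) ⟨T 1, T (-1),
    by rw [← T_add, add_neg_cancel, T_zero], by rw [← T_add, neg_add_cancel, T_zero]⟩

lemma lmap_C (f : A →ₐ[R] B) (a : A) : lmap f (C a) = C (f a) := by
  rw [lmap, ev_C]
  rfl

lemma lmap_T (f : A →ₐ[R] B) (n : ℤ) : lmap f (T n) = T n := by
  rw [lmap, ev_T]
  obtain ⟨m, rfl | rfl⟩ := n.eq_nat_or_neg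
  · rw [zpow_natCast, Units.val_pow_eq_pow_val, T_pow, mul_one]
  · rw [zpow_neg, zpow_natCast, ← inv_pow, Units.val_pow_eq_pow_val]
    change T (-1) ^ m = _
    rw [T_pow]
    congr 1
    ring

end

section

variable {R A ι : Type} [CommRing R] [CommRing A] [Algebra R A] (x : ι → A)
  (hx : Algebra.adjoin R (Set.range x) = ⊤) (l : ι → ℤ) (ρ : A →ₐ[R] LaurentPolynomial A)
  (hρ : ∀ i, ρ (x i) = C (x i) * T (l i)) (u : Aˣ) (hu : ρ u = C (u : A) * T 1)

/-- forward -/
noncomputable def slF : A →ₐ[R] LaurentPolynomial (A ⧸ Ideal.span {(u : A) - 1}) :=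
  (lmap (Ideal.Quotient.mkₐ R (Ideal.span {(u : A) - 1}))).comp ρ

include hρ in
lemma slF_x (i : ι) : slF ρ u (x i) = C (Ideal.Quotient.mk _ (x i)) * T (l i) := by
  rw [slF, AlgHom.comp_apply, hρ, map_mul, lmap_C, lmap_T]
  rfl

include hu in
lemma slF_u : slF ρ u (u : A) = T 1 := by
  rw [slF, AlgHom.comp_apply, hu, map_mul, lmap_C, lmap_T]
  have h : Ideal.Quotient.mkₐ R (Ideal.span {(u : A) - 1}) (u : A) = 1 := by
    have : Ideal.Quotient.mk (Ideal.span {(u : A) - 1}) ((u : A) - 1) = 0 :=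
      Ideal.Quotient.eq_zero_iff_mem.mpr (Ideal.subset_span rfl)
    rw [map_sub, map_one, sub_eq_zero] at this
    exact this
  rw [h, map_one, one_mul]

/-- the projection -/
noncomputable def slP : A →ₐ[R] A := (ev (AlgHom.id R A) u⁻¹).comp ρ

include hρ in
lemma slP_x (i : ι) : slP ρ u (x i) = x i * ((u ^ (-l i) : Aˣ) : A) := by
  rw [slP, AlgHom.comp_apply, hρ, map_mul, ev_C, ev_T]
  rw [AlgHom.id_apply, inv_zpow, zpow_neg]

include hu in
lemma slP_u : slP ρ u (u : A) = 1 := by
  rw [slP, AlgHom.comp_apply, hu, map_mul, ev_C, ev_T, AlgHom.id_apply, zpow_one, Units.mul_inv]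

/-- the projection on the quotient -/
noncomputable def slQ : (A ⧸ Ideal.span {(u : A) - 1}) →ₐ[R] A :=
  Ideal.Quotient.liftₐ _ (slP ρ u) (by
    intro a ha
    obtain ⟨b, rfl⟩ := Ideal.mem_span_singleton'.mp ha
    rw [map_mul, map_sub, slP_u ρ u hu, map_one, sub_self, mul_zero])

/-- backward -/
noncomputable def slG : LaurentPolynomial (A ⧸ Ideal.span {(u : A) - 1}) →ₐ[R] A :=
  ev (slQ ρ u hu) u

/-- **Slices.** -/
noncomputable def sliceE : A ≃ₐ[R] LaurentPolynomial (A ⧸ Ideal.span {(u : A) - 1}) :=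
  AlgEquiv.ofAlgHom (slF ρ u) (slG ρ u hu)
    (by
      apply lau_ext
      · intro a
        obtain ⟨a, rfl⟩ := Ideal.Quotient.mk_surjective a
        rw [AlgHom.comp_apply, slG, ev_C]
        have h : (slF ρ u).comp (slP ρ u) = ((IsScalarTower.toAlgHom R
            (A ⧸ Ideal.span {(u : A) - 1}) (LaurentPolynomial (A ⧸ Ideal.span {(u : A) - 1}))).comp
            (Ideal.Quotient.mkₐ R (Ideal.span {(u : A) - 1}))) := by
          refine AlgHom.ext_of_adjoin_eq_top hx ?_
          rintro _ ⟨i, rfl⟩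
          rw [AlgHom.comp_apply, slP_x x l ρ hρ, map_mul, slF_x x l ρ hρ]
          have h1 : slF ρ u ((u ^ (-l i) : Aˣ) : A) = T (-l i) := by
            have h2 : Units.map (slF ρ u : A →* _) u = (⟨T 1, T (-1),
                by rw [← T_add, add_neg_cancel, T_zero], by rw [← T_add, neg_add_cancel, T_zero]⟩ :
                (LaurentPolynomial (A ⧸ Ideal.span {(u : A) - 1}))ˣ) := by
              apply Units.ext
              exact slF_u ρ u hu
            have h3 := Units.coe_map (slF ρ u : A →* LaurentPolynomial (A ⧸ Ideal.span {(u : A) - 1}))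
              (u ^ (-l i))
            refine h3.symm.trans ?_
            rw [map_zpow, h2]
            have h4 := lmap_T (R := R) (AlgHom.id R (A ⧸ Ideal.span {(u : A) - 1})) (-l i)
            rw [lmap, ev_T] at h4
            exact h4
          rw [h1, mul_assoc, ← T_add, add_neg_cancel, T_zero, mul_one]
          rfl
        have h2 := congrArg (fun f => f a) h
        exact h2
      · rw [AlgHom.comp_apply, slG, ev_T, zpow_one, slF_u ρ u hu]
        rfl)
    (by
      refine AlgHom.ext_of_adjoin_eq_top hx ?_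
      rintro _ ⟨i, rfl⟩
      rw [AlgHom.comp_apply, slF_x x l ρ hρ, map_mul, slG, ev_C, ev_T]
      change slP ρ u (x i) * _ = _
      rw [slP_x x l ρ hρ, mul_assoc, ← Units.val_mul, ← zpow_add, neg_add_cancel, zpow_zero,
        Units.val_one, mul_one]
      rfl)

end

end Pool.Agent.U672.TC
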