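import Pool.Agent.U672.TC.Ferm
import Pool.Agent.U672.TC.Dep

/-!
# Systems of small excess in tori
-/

set_option autoImplicit false

open CategoryTheory AlgebraicGeometry MvPolynomial Pool.Agent.Y116.UV Pool.Agent.Z125.UN
  Pool.Agent.U738.BN Pool.Agent.U672.ST

namespace Pool.Agent.U672.TC

section

variable {k : Type} [Field k] {P : Sch k → Prop} {N : ℕ} {ι κ : Type}

/-- The excess of a system: the sum of the numbers of terms minus two, over the equations with more
than two terms. -/
def excess [Fintype κ] (G : κ → MvPolynomial ι k) : ℕ := ∑ i, ((G i).support.card - 2)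

lemma card_Rs (G : κ → MvPolynomial ι k) (m0 m1 : κ → (ι →₀ ℕ)) (hc : Ch G m0 m1) (i : κ) :
    (Rs G m0 m1 i).card = (G i).support.card - 2 := by
  classical
  by_cases hi : G i = 0
  · rw [Rs, hi, support_zero]
    rfl
  · obtain ⟨h0, h1, h2⟩ := hc i hi
    have h3 : Rs G m0 m1 i = ((G i).support.erase (m0 i)).erase (m1 i) := by
      rw [Rs]
    rw [h3, Finset.card_erase_of_mem (Finset.mem_erase.mpr ⟨h2.symm, h1⟩),
      Finset.card_erase_of_mem h0]
    omega

lemma card_Pr [Fintype κ] (G : κ → MvPolynomial ι k) (m0 m1 : κ → (ι →₀ ℕ)) (hc : Ch G m0 m1) :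
    Nat.card (Pr G m0 m1) = excess G := by
  rw [Nat.card_eq_fintype_card, Fintype.card_sigma, excess]
  refine Finset.sum_congr rfl fun i _ => ?_
  rw [Fintype.card_coe, card_Rs G m0 m1 hc]

lemma exists_ch (G : κ → MvPolynomial ι k) (h : ∀ i, (G i).support.card ≠ 1) :
    ∃ m0 m1, Ch G m0 m1 := by
  have h1 : ∀ i, ∃ a b, G i ≠ 0 → a ∈ (G i).support ∧ b ∈ (G i).support ∧ a ≠ b := by
    intro i
    by_cases hi : G i = 0
    · exact ⟨0, 0, fun h => absurd hi h⟩
    · have h2 : 1 < (G i).support.card := by
        have h3 : (G i).support.card ≠ 0 := by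
          rw [Finset.card_ne_zero, Finset.nonempty_iff_ne_empty]
          exact fun h4 => hi (support_eq_empty.mp h4)
        have := h i
        omega
      obtain ⟨a, ha, b, hb, hab⟩ := Finset.one_lt_card.mp h2
      exact ⟨a, b, fun _ => ⟨ha, hb, hab⟩⟩
  choose m0 m1 hm using h1
  exact ⟨m0, m1, hm⟩

variable [Fintype ι]

/-- A monomial has no zeros in a torus. -/
lemma triv_T (hP : Bnd True P) (G : κ → MvPolynomial ι k) (i : κ) (h : (G i).support.card = 1) :
    P (aff k (Tor G)) := by
  apply p_empty hP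
  obtain ⟨a, ha⟩ := Finset.card_eq_one.mp h
  have h1 := tor_rel G i
  rw [aeval_sum, ha, Finset.sum_singleton] at h1
  have h2 : coeff a (G i) ≠ 0 := mem_support_iff.mp (by
    rw [ha]
    exact Finset.mem_singleton_self a)
  have h3 : IsUnit (algebraMap k (Tor G) (coeff a (G i)) * (um (tx G) (zv a) : Tor G)) :=
    ((IsUnit.mk0 _ h2).map _).mul (Units.isUnit _)
  rw [h1] at h3
  exact isUnit_zero_iff.mp h3 |> fun h4 => subsingleton_of_zero_eq_one h4

/-- systems of excess at most `N` -/
theorem few_T [Fintype κ] (hP : Bnd True P) (hN : PosN True P N) (G : κ → MvPolynomial ι k)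
    (he : excess G ≤ N) : P (aff k (Tor G)) := by
  by_cases h : ∃ i, (G i).support.card = 1
  · obtain ⟨i, hi⟩ := h
    exact triv_T hP G i hi
  · push Not at h
    obtain ⟨m0, m1, hc⟩ := exists_ch G h
    exact few_P G m0 m1 hN hc (by rw [card_Pr G m0 m1 hc]; exact he)

omit [Fintype ι] in
lemma span_dif [Fintype κ] (G : κ → MvPolynomial ι k) (g : ι → ℤ)
    (hg : g ∈ Submodule.span ℤ (dif G)) :
    ∃ b : κ → (ι →₀ ℕ) → ℤ, (∀ i, ∑ m ∈ (G i).support, b i m = 0) ∧
      g = ∑ i, ∑ m ∈ (G i).support, b i m • zv m := by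
  classical
  induction hg using Submodule.span_induction with
  | mem g hg =>
    obtain ⟨i, a, ha, c, hc, rfl⟩ := hg
    refine ⟨fun i' m => if i' = i then (if m = a then 1 else 0) - (if m = c then 1 else 0) else 0,
      fun i' => ?_, ?_⟩
    · by_cases h : i' = i
      · subst h
        simp only [if_true]
        rw [Finset.sum_sub_distrib, Finset.sum_ite_eq' _ a, Finset.sum_ite_eq' _ c, if_pos ha,
          if_pos hc, sub_self]
      · simp only [h, if_false]
        exact Finset.sum_const_zero
    · rw [Finset.sum_eq_single i]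
      · simp only [if_true, sub_smul, ite_smul, one_smul, zero_smul]
        rw [Finset.sum_sub_distrib, Finset.sum_ite_eq' _ a, Finset.sum_ite_eq' _ c, if_pos ha,
          if_pos hc]
      · intro i' _ h
        simp only [h, if_false, zero_smul]
        exact Finset.sum_const_zero
      · intro h
        exact absurd (Finset.mem_univ i) h
  | zero =>
    refine ⟨0, fun i => ?_, ?_⟩
    · exact Finset.sum_eq_zero fun m _ => rfl
    · refine (Finset.sum_eq_zero fun i _ => Finset.sum_eq_zero fun m _ => ?_).symm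
      change (0 : ℤ) • zv m = 0
      exact zero_smul _ _
  | add g g' _ _ h h' =>
    obtain ⟨b, hb, rfl⟩ := h
    obtain ⟨b', hb', rfl⟩ := h'
    refine ⟨b + b', fun i => ?_, ?_⟩
    · change ∑ m ∈ (G i).support, (b i m + b' i m) = 0
      rw [Finset.sum_add_distrib, hb, hb', add_zero]
    · rw [← Finset.sum_add_distrib]
      refine Finset.sum_congr rfl fun i _ => ?_
      rw [← Finset.sum_add_distrib]
      exact Finset.sum_congr rfl fun m _ => (add_smul _ _ _).symm
  | smul n g _ h =>
    obtain ⟨b, hb, rfl⟩ := h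
    refine ⟨fun i m => n * b i m, fun i => ?_, ?_⟩
    · rw [← Finset.mul_sum, hb, mul_zero]
    · rw [Finset.smul_sum]
      refine Finset.sum_congr rfl fun i _ => ?_
      rw [Finset.smul_sum]
      exact Finset.sum_congr rfl fun m _ => (mul_smul _ _ _).symm

omit [Fintype ι] in
lemma card_rep (G : κ → MvPolynomial ι k) (f : MvPolynomial ι k) (i : κ ⊕ f.support) :
    ((rep G f i).support.card - 2) = Sum.elim (fun i => (G i).support.card - 2) (fun _ => 0) i := by
  classical
  rcases i with i | j
  · change ((rl G Unit i).support.card - 2) = (G i).support.card - 2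
    rw [rl, support_rename_of_injective Sum.inl_injective,
      Finset.card_image_of_injective _ (Finsupp.mapDomain_injective Sum.inl_injective)]
  · change ((monomial (he (j : ι →₀ ℕ)) 1 - 1 : MvPolynomial (ι ⊕ Unit) k).support.card - 2) = 0
    have h1 : (monomial (he (j : ι →₀ ℕ)) 1 - 1 : MvPolynomial (ι ⊕ Unit) k).support ⊆
        {he (j : ι →₀ ℕ), 0} := by
      refine (support_sub _ _ _).trans ?_
      intro a ha
      rcases Finset.mem_union.mp ha with h | h
      · have h2 := support_monomial_subset h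
        rw [Finset.mem_singleton] at h2
        rw [h2]
        exact Finset.mem_insert_self _ _
      · rw [support_one, Finset.mem_singleton] at h
        rw [h]
        exact Finset.mem_insert_of_mem (Finset.mem_singleton_self _)
    have h2 := (Finset.card_le_card h1).trans Finset.card_le_two
    omega

omit [Fintype ι] in
lemma excess_rep [Fintype κ] (G : κ → MvPolynomial ι k) (f : MvPolynomial ι k) :
    excess (rep G f) = excess G := by
  rw [excess, excess, Finset.sum_congr rfl fun i _ => card_rep G f i, Fintype.sum_sum_type]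
  simp only [Sum.elim_inl, Sum.elim_inr, Finset.sum_const_zero, add_zero]

omit [Fintype ι] in
lemma excess_adj [Fintype κ] (G : κ → MvPolynomial ι k) (f : MvPolynomial ι k) :
    excess (adj G f) = (f.support.card - 2) + excess G := by
  rw [excess, Fintype.sum_option]
  rfl

/-- one equation with at least three terms, and others -/
theorem adj_T [Fintype κ] (hP : BndT P) (hp : Plane P) (hN : PosN True P N)
    (G : κ → MvPolynomial ι k) (f : MvPolynomial ι k) (he : excess (adj G f) ≤ N + 1)
    (h3 : 3 ≤ f.support.card) (hne : ∀ i, (G i).support.card ≠ 1) : P (aff k (Tor (adj G f))) := by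
  classical
  by_cases hI : Ind G f
  · refine red_P' G f hP hp hI (few_T hP.toBnd hN _ ?_)
    rw [excess_rep]
    rw [excess_adj] at he
    omega
  · unfold Ind at hI
    push Not at hI
    obtain ⟨n, hn0, hn1, hn⟩ := hI
    obtain ⟨j, hj⟩ := Function.ne_iff.mp hn
    obtain ⟨b, hb, hb1⟩ := span_dif G _ hn1
    obtain ⟨m0, m1, hc⟩ := exists_ch G hne
    -- the first exponents
    have h4 : 2 ≤ (f.support.erase (j : ι →₀ ℕ)).card := by
      rw [Finset.card_erase_of_mem j.2]
      omega
    obtain ⟨a, ha⟩ := Finset.card_pos.mp (lt_of_lt_of_le zero_lt_two h4)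
    have h5 : 1 ≤ ((f.support.erase (j : ι →₀ ℕ)).erase a).card := by
      rw [Finset.card_erase_of_mem ha]
      omega
    obtain ⟨c, hc2⟩ := Finset.card_pos.mp h5
    rw [Finset.mem_erase] at ha
    rw [Finset.mem_erase, Finset.mem_erase] at hc2
    have hf : f ≠ 0 := by
      rintro rfl
      rw [support_zero] at h3
      simp at h3
    have hcc : Ch (adj G f) (fun i => i.elim a m0) (fun i => i.elim (j : ι →₀ ℕ) m1) := by
      rintro (_ | i) hi
      · exact ⟨ha.2, j.2, ha.1⟩
      · exact hc i hi
    let B : Option κ → (ι →₀ ℕ) → ℤ := fun i m =>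
      i.elim (-(if h : m ∈ f.support then n ⟨m, h⟩ else 0)) fun i => b i m
    have hs : ∀ F : (ι →₀ ℕ) → ℤ → (ι → ℤ), ∑ m ∈ f.support,
        F m (if h : m ∈ f.support then n ⟨m, h⟩ else 0) = ∑ j : f.support, F j (n j) := by
      intro F
      rw [← Finset.sum_coe_sort]
      refine Finset.sum_congr rfl fun m _ => ?_
      rw [dif_pos m.2]
    have hs' : ∑ m ∈ f.support, (if h : m ∈ f.support then n ⟨m, h⟩ else 0) =
        ∑ j : f.support, n j := by
      rw [← Finset.sum_coe_sort]
      refine Finset.sum_congr rfl fun m _ => ?_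
      rw [dif_pos m.2]
    refine dep_P (adj G f) _ _ none hN hcc B ?_ ?_ hf ⟨c, ?_⟩ ?_ ?_
    · rintro (_ | i)
      · change ∑ m ∈ f.support, -(if h : m ∈ f.support then n ⟨m, h⟩ else 0) = 0
        rw [Finset.sum_neg_distrib, hs', hn0, neg_zero]
      · exact hb i
    · rw [Fintype.sum_option]
      change ∑ m ∈ f.support, (-(if h : m ∈ f.support then n ⟨m, h⟩ else 0)) • zv m +
        ∑ i, ∑ m ∈ (G i).support, b i m • zv m = 0
      rw [← hb1, hs fun m x => (-x) • zv m, ← Finset.sum_add_distrib]
      exact Finset.sum_eq_zero fun j _ => by rw [neg_smul, neg_add_cancel]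
    · exact (mem_Rs (adj G f) _ _).mpr ⟨hc2.2.1, hc2.1, hc2.2.2⟩
    · change -(if h : (j : ι →₀ ℕ) ∈ f.support then n ⟨j, h⟩ else 0) ≠ 0
      rw [dif_pos j.2]
      exact neg_ne_zero.mpr hj
    · rw [card_Pr (adj G f) _ _ hcc]
      exact he

/-- the other equations -/
noncomputable def oth (G : κ → MvPolynomial ι k) (i₀ : κ) : {i // i ≠ i₀} → MvPolynomial ι k :=
  fun i => G i.1

/-- one equation is separated -/
noncomputable def othE [DecidableEq κ] (G : κ → MvPolynomial ι k) (i₀ : κ)
    (w : MvPolynomial ι k) : Pc (adj (oth G i₀) (G i₀)) w ≃ₐ[k] Pc G w :=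
  pcSame
    (by
      rintro (_ | i)
      · exact pc_rel G w i₀
      · exact pc_rel G w i.1)
    (pc_unit _ _)
    (by
      intro i
      by_cases h : i = i₀
      · subst h
        exact pc_rel (adj (oth G i) (G i)) w none
      · exact pc_rel (adj (oth G i₀) (G i₀)) w (some ⟨i, h⟩))
    (pc_unit _ _)

omit [Fintype ι] in
lemma excess_oth [Fintype κ] [DecidableEq κ] (G : κ → MvPolynomial ι k) (i₀ : κ) :
    excess (adj (oth G i₀) (G i₀)) = excess G := by
  rw [excess_adj, excess, excess, ← Finset.add_sum_erase _ _ (Finset.mem_univ i₀)]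
  congr 1
  have h : ∑ i : {i // i ≠ i₀}, ((G i.1).support.card - 2) =
      ∑ i ∈ Finset.univ.erase i₀, ((G i).support.card - 2) := by
    rw [← Finset.sum_coe_sort (Finset.univ.erase i₀)]
    refine Fintype.sum_equiv (Equiv.subtypeEquivRight fun i => ?_) _ _ fun i => rfl
    rw [Finset.mem_erase]
    exact ⟨fun h => ⟨h, Finset.mem_univ i⟩, fun h => h.1⟩
  exact h

/-- **Systems of excess at most `N + 1` in tori.** -/
theorem exc_T [Fintype κ] (hP : BndT P) (hp : Plane P) (hN : PosN True P N)
    (G : κ → MvPolynomial ι k) (he : excess G ≤ N + 1) : P (aff k (Tor G)) := by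
  classical
  by_cases h1 : ∃ i, (G i).support.card = 1
  · obtain ⟨i, hi⟩ := h1
    exact triv_T hP.toBnd G i hi
  by_cases h2 : excess G ≤ N
  · exact few_T hP.toBnd hN G h2
  push Not at h1 h2
  obtain ⟨i₀, hi⟩ : ∃ i, 3 ≤ (G i).support.card := by
    by_contra h3
    push Not at h3
    have h4 : excess G = 0 := Finset.sum_eq_zero fun i _ => by
      have := h3 i
      omega
    omega
  refine iso_alg hP.toUni (othE G i₀ _) (adj_T hP hp hN (oth G i₀) (G i₀) ?_ hi fun i => h1 i.1)
  rw [excess_oth]
  exact he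

end

end Pool.Agent.U672.TC
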