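import Pool.Agent.U672.TC.Eng

/-!
# Closed subschemes of tori
-/

set_option autoImplicit false

open CategoryTheory AlgebraicGeometry MvPolynomial Pool.Agent.Y116.UV Pool.Agent.Z125.UN
  Pool.Agent.U738.BN

namespace Pool.Agent.U672.TC

section

variable {R : Type} [CommRing R] {ι κ : Type}

/-- exponents -/
def zv (m : ι →₀ ℕ) : ι → ℤ := fun i => m i

lemma zv_add (m m' : ι →₀ ℕ) : zv (m + m') = zv m + zv m' := by
  funext i
  change ((m i + m' i : ℕ) : ℤ) = _
  push_cast
  rfl

lemma zv_inj {m m' : ι →₀ ℕ} (h : zv m = zv m') : m = m' := by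
  apply Finsupp.ext
  intro i
  have h1 := congrFun h i
  exact Int.ofNat_inj.mp h1

variable [Fintype ι]

/-- the product of the coordinates -/
noncomputable def tw (R ι : Type) [CommRing R] [Fintype ι] : MvPolynomial ι R := ∏ s, X s

/-- The ring of functions on the subscheme `G = 0` of the torus with the coordinates `ι`. -/
abbrev Tor (G : κ → MvPolynomial ι R) : Type := Pc G (tw R ι)

lemma aeval_tw_eq {A : Type} [CommRing A] [Algebra R A] (x : ι → A) :
    aeval x (tw R ι) = ∏ s, x s := by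
  rw [tw, map_prod]
  simp only [aeval_X]

lemma aeval_tw {A : Type} [CommRing A] [Algebra R A] (x : ι → A) (h : ∀ s, IsUnit (x s)) :
    IsUnit (aeval x (tw R ι)) := by
  rw [tw, map_prod]
  simp only [aeval_X]
  exact (IsUnit.prod_univ_iff).mpr h

lemma units_of_tw {A : Type} [CommRing A] [Algebra R A] (x : ι → A)
    (h : IsUnit (aeval x (tw R ι))) (s : ι) : IsUnit (x s) := by
  rw [tw, map_prod] at h
  simp only [aeval_X] at h
  exact (IsUnit.prod_univ_iff).mp h s

variable (G : κ → MvPolynomial ι R)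

lemma tx_isUnit (s : ι) : IsUnit (pv G (tw R ι) s) := by
  have h := pc_unit G (tw R ι)
  rw [← pc_aeval] at h
  exact units_of_tw _ h s

/-- the coordinates as units -/
noncomputable def tx (s : ι) : (Tor G)ˣ := (tx_isUnit G s).unit

lemma tx_val (s : ι) : (tx G s : Tor G) = pv G (tw R ι) s := rfl

variable {A : Type} [CommRing A] [Algebra R A]

lemma um_zv (x : ι → Aˣ) (m : ι →₀ ℕ) : (um x (zv m) : A) = m.prod fun s n => (x s : A) ^ n := by
  rw [um, Units.coe_prod, Finsupp.prod_fintype]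
  · refine Finset.prod_congr rfl fun i _ => ?_
    change ((x i ^ (m i : ℤ) : Aˣ) : A) = _
    rw [zpow_natCast, Units.val_pow_eq_pow_val]
  · intro i
    exact pow_zero _

lemma aeval_mono (x : ι → Aˣ) (m : ι →₀ ℕ) (c : R) :
    aeval (fun s => (x s : A)) (monomial m c) = algebraMap R A c * um x (zv m) := by
  rw [aeval_monomial, um_zv]

lemma aeval_mono1 (x : ι → Aˣ) (m : ι →₀ ℕ) :
    aeval (fun s => (x s : A)) (monomial m (1 : R)) = um x (zv m) := by
  rw [aeval_mono, map_one, one_mul]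

lemma aeval_sum (x : ι → Aˣ) (f : MvPolynomial ι R) :
    aeval (fun s => (x s : A)) f = ∑ m ∈ f.support, algebraMap R A (coeff m f) * um x (zv m) := by
  conv_lhs => rw [← support_sum_monomial_coeff f]
  rw [map_sum]
  exact Finset.sum_congr rfl fun m _ => aeval_mono x m _

variable {G}

/-- homomorphisms given by units -/
noncomputable def torLift (x : ι → Aˣ) (h : ∀ k, aeval (fun s => (x s : A)) (G k) = 0) :
    Tor G →ₐ[R] A := pcLift G (tw R ι) (fun s => (x s : A)) h (aeval_tw _ fun s => (x s).isUnit)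

lemma torLift_pv (x : ι → Aˣ) (h : ∀ k, aeval (fun s => (x s : A)) (G k) = 0) (s : ι) :
    torLift x h (pv G (tw R ι) s) = x s := pcLift_pv _ _ _ _ _ _

lemma torLift_pc (x : ι → Aˣ) (h : ∀ k, aeval (fun s => (x s : A)) (G k) = 0)
    (p : MvPolynomial ι R) : torLift x h (pc G (tw R ι) p) = aeval (fun s => (x s : A)) p :=
  pcLift_pc _ _ _ _ _ _

variable (G)

lemma tor_rel (k : κ) : aeval (fun s => (tx G s : Tor G)) (G k) = 0 := by
  have h : (fun s => (tx G s : Tor G)) = pv G (tw R ι) := rfl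
  rw [h, pc_aeval, pc_rel]

lemma tor_gen : Algebra.adjoin R (Set.range (fun s => (tx G s : Tor G)) ∪
    Set.range (fun s => (((tx G s)⁻¹ : (Tor G)ˣ) : Tor G))) = ⊤ := by
  let S := Algebra.adjoin R (Set.range (fun s => (tx G s : Tor G)) ∪
    Set.range (fun s => (((tx G s)⁻¹ : (Tor G)ˣ) : Tor G)))
  have h1 : ∀ p, pc G (tw R ι) p ∈ S := by
    intro p
    rw [← pc_aeval]
    induction p using MvPolynomial.induction_on with
    | C a =>
      rw [aeval_C]
      exact Subalgebra.algebraMap_mem _ _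
    | add p q hp hq =>
      rw [map_add]
      exact Subalgebra.add_mem _ hp hq
    | mul_X p s hp =>
      rw [map_mul, aeval_X]
      exact Subalgebra.mul_mem _ hp (Algebra.subset_adjoin (Or.inl ⟨s, rfl⟩))
  have h2 : ∃ v ∈ S, v * pc G (tw R ι) (tw R ι) = 1 := by
    refine ⟨∏ s, (((tx G s)⁻¹ : (Tor G)ˣ) : Tor G), ?_, ?_⟩
    · exact Subalgebra.prod_mem _ fun s _ => Algebra.subset_adjoin (Or.inr ⟨s, rfl⟩)
    · rw [← pc_aeval, aeval_tw_eq, ← Finset.prod_mul_distrib]
      refine Finset.prod_eq_one fun s _ => ?_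
      rw [← tx_val, Units.inv_mul]
  obtain ⟨v, hv, hv1⟩ := h2
  rw [eq_top_iff]
  rintro a -
  obtain ⟨n, b, hb⟩ := IsLocalization.Away.surj
    (Ideal.Quotient.mk (Ideal.span (Set.range G)) (tw R ι)) a
  obtain ⟨p, rfl⟩ := Ideal.Quotient.mk_surjective b
  have h3 : a = pc G (tw R ι) p * v ^ n := by
    have h4 : a * pc G (tw R ι) (tw R ι) ^ n = pc G (tw R ι) p := hb
    rw [← h4, mul_assoc, ← mul_pow, mul_comm _ v, hv1, one_pow, mul_one]
  rw [h3]
  exact S.mul_mem (h1 p) (S.pow_mem hv n)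

/-- The gradings. -/
lemma tor_coact [DecidableEq ι] (l : (ι → ℤ) →ₗ[ℤ] ℤ)
    (hl : ∀ k, ∀ m ∈ (G k).support, ∀ m' ∈ (G k).support, l (zv m) = l (zv m')) :
    ∃ ρ : Tor G →ₐ[R] LaurentPolynomial (Tor G),
      ∀ s, ρ (tx G s) = LaurentPolynomial.C (tx G s : Tor G) *
        LaurentPolynomial.T (l (Pi.single s 1)) := by
  let y : ι → (LaurentPolynomial (Tor G))ˣ := fun s =>
    Units.map (LaurentPolynomial.C : Tor G →+* LaurentPolynomial (Tor G)).toMonoidHom (tx G s) *
      tu (Tor G) (l (Pi.single s 1))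
  have hy : ∀ g, um y g =
      Units.map (LaurentPolynomial.C : Tor G →+* LaurentPolynomial (Tor G)).toMonoidHom
        (um (tx G) g) * tu (Tor G) (l g) := by
    intro g
    rw [map_um, um, um]
    have h4 : tu (Tor G) (l g) = ∏ i, tu (Tor G) (l (Pi.single i 1)) ^ g i := by
      have h5 : l g = ∑ i, g i * l (Pi.single i 1) := by
        conv_lhs => rw [← Finset.univ_sum_single g]
        rw [map_sum]
        refine Finset.sum_congr rfl fun i _ => ?_
        have h6 : (Pi.single i (g i) : ι → ℤ) = g i • (Pi.single i 1 : ι → ℤ) := by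
          rw [← Pi.single_smul, smul_eq_mul, mul_one]
        rw [h6, map_smul, smul_eq_mul]
      rw [h5]
      have h6 : ∀ s : Finset ι, tu (Tor G) (∑ i ∈ s, g i * l (Pi.single i 1)) =
          ∏ i ∈ s, tu (Tor G) (l (Pi.single i 1)) ^ g i := by
        intro s
        induction s using Finset.induction_on with
        | empty => rw [Finset.sum_empty, Finset.prod_empty, tu_zero]
        | insert a s ha ih => rw [Finset.sum_insert ha, Finset.prod_insert ha, tu_add, ih, tu_zpow]
      exact h6 _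
    rw [h4, ← Finset.prod_mul_distrib]
    exact Finset.prod_congr rfl fun i _ => mul_zpow _ _ _
  refine ⟨torLift y ?_, fun s => ?_⟩
  · intro k
    rcases (G k).support.eq_empty_or_nonempty with h0 | ⟨m0, hm0⟩
    · rw [support_eq_empty] at h0
      rw [h0, map_zero]
    · have h1 : aeval (fun s => (y s : LaurentPolynomial (Tor G))) (G k) =
          LaurentPolynomial.C (aeval (fun s => (tx G s : Tor G)) (G k)) *
            LaurentPolynomial.T (l (zv m0)) := by
        rw [aeval_sum, aeval_sum, map_sum, Finset.sum_mul]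
        refine Finset.sum_congr rfl fun m hm => ?_
        rw [hy, hl k m hm m0 hm0, map_mul, mul_assoc]
        rfl
      rw [h1, tor_rel, map_zero, zero_mul]
  · exact torLift_pv _ _ s

end

section

variable {R : Type} [CommRing R] {sep : Prop} {P : Sch R → Prop} {N : ℕ} {ι κ : Type} [Fintype ι]

/-- **The engine for subschemes of tori.** -/
theorem tor_P (hP : PosN sep P N) (G : κ → MvPolynomial ι R) (D : Type) [CommRing D]
    [Algebra R D] [Algebra.FiniteType R D] (hD : ringKrullDim D ≤ N) (δ : D →ₐ[R] Tor G)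
    (hδ : ∀ k, ∀ m ∈ (G k).support, ∀ m' ∈ (G k).support,
      ((um (tx G) (zv m - zv m') : (Tor G)ˣ) : Tor G) ∈ Set.range δ) : P (aff R (Tor G)) := by
  classical
  let Λ : Submodule ℤ (ι → ℤ) := Submodule.span ℤ
    {g | ∃ k, ∃ m ∈ (G k).support, ∃ m' ∈ (G k).support, g = zv m - zv m'}
  let _ : Algebra D (Tor G) := δ.toRingHom.toAlgebra
  have _ : IsScalarTower R D (Tor G) := IsScalarTower.of_algebraMap_eq fun r => by
    change _ = δ (algebraMap R D r)
    rw [AlgHom.commutes]
  refine (engine hP D hD Λ (Tor G) (tx G) (tor_gen G) ?_ ?_).2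
  · intro l hl
    refine tor_coact G l fun k m hm m' hm' => ?_
    have h := hl (zv m - zv m') (Submodule.subset_span ⟨k, m, hm, m', hm', rfl⟩)
    rwa [map_sub, sub_eq_zero] at h
  · intro g hg
    have h : (um (tx G) g : Tor G) ∈ Set.range δ ∧ (um (tx G) (-g) : Tor G) ∈ Set.range δ := by
      induction hg using Submodule.span_induction with
      | mem g hg =>
        obtain ⟨k, m, hm, m', hm', rfl⟩ := hg
        rw [neg_sub]
        exact ⟨hδ k m hm m' hm', hδ k m' hm' m hm⟩
      | zero =>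
        rw [neg_zero, um_zero]
        exact ⟨⟨1, map_one δ⟩, ⟨1, map_one δ⟩⟩
      | add g g' _ _ h h' =>
        obtain ⟨⟨a, ha⟩, ⟨b, hb⟩⟩ := h
        obtain ⟨⟨a', ha'⟩, ⟨b', hb'⟩⟩ := h'
        rw [neg_add, um_add, um_add]
        exact ⟨⟨a * a', by rw [map_mul, ha, ha', Units.val_mul]⟩,
          ⟨b * b', by rw [map_mul, hb, hb', Units.val_mul]⟩⟩
      | smul n g _ h =>
        obtain ⟨⟨a, ha⟩, ⟨b, hb⟩⟩ := h
        rw [← smul_neg, um_zsmul, um_zsmul]
        rcases Int.natAbs_eq n with h | h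
        · rw [h, zpow_natCast, zpow_natCast]
          exact ⟨⟨a ^ n.natAbs, by rw [map_pow, ha, Units.val_pow_eq_pow_val]⟩,
            ⟨b ^ n.natAbs, by rw [map_pow, hb, Units.val_pow_eq_pow_val]⟩⟩
        · rw [h, zpow_neg, zpow_neg, zpow_natCast, zpow_natCast, ← inv_pow, ← inv_pow, ← um_neg,
            ← um_neg, neg_neg]
          exact ⟨⟨b ^ n.natAbs, by rw [map_pow, hb, Units.val_pow_eq_pow_val]⟩,
            ⟨a ^ n.natAbs, by rw [map_pow, ha, Units.val_pow_eq_pow_val]⟩⟩
    exact h.1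

end

end Pool.Agent.U672.TC
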